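import Pool.Agent.Y46.QTH8
import Pool.Agent.Y500.QTZ4

set_option autoImplicit false

/-! A pointwise bound for `ell d`, polynomial in `d` and in the height, and the resulting bound for
the number of zeros. -/

namespace Pool.Agent.U693.QT

open Complex MeasureTheory Filter Topology Set
open Pool.Agent.Y19.QT
open Pool.Agent.Y703.QT8
open Pool.Agent.H306R2.RZ (js Gk)
open scoped ENNReal ComplexConjugate

variable {Q : ℕ} {lam : ℕ → ℝ}

theorem ell_poly (T : Twists Q lam) : ∃ (C : ℝ) (A : ℕ), 0 < C ∧ ∀ (d : ℤ) (s : ℂ), Squarefree d →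
    1 / 4 ≤ s.re → s.re ≤ 3 → ‖T.ell d s‖ ≤ C * (|(d : ℝ)| * (2 + |s.im|)) ^ A := by
  have hpi := Real.pi_gt_three
  have hpi4 := Real.pi_lt_four
  have hc := T.one_le_c
  obtain ⟨c, hc0, hg⟩ := gamma_low
  refine ⟨(2 * Real.pi * T.c) ^ 4 * c⁻¹ * Real.exp 1 * (480 * T.c) * (2 * T.c) ^ 8, 8, by positivity,
    fun d s hd hs1 hs2 => ?_⟩
  set y : ℝ := |s.im| with hy
  have hy0 : 0 ≤ y := abs_nonneg _
  set ζ : ℝ := 1 / (2 + y) with hζ
  have hζ0 : 0 < ζ := by positivity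
  have hζ1 : ζ ≤ 1 / 2 := one_div_le_one_div_of_le (by norm_num) (by linarith)
  set θ : ℝ := Real.pi / 2 - ζ with hθ
  have h0 : 0 ≤ θ := by rw [hθ]; linarith
  have h1 : θ < Real.pi / 2 := by rw [hθ]; linarith
  have ha : |θ| < Real.pi / 2 := by rwa [abs_of_nonneg h0]
  have ha' : |(-θ)| < Real.pi / 2 := by rwa [abs_neg]
  have hq := q_pos T hd
  have hd1 := one_le_abs hd
  set D := T.c * |(d : ℝ)| with hD
  have hD1 : 1 ≤ D := by nlinarith
  have hqD : T.q d ≤ D := T.q_upper d hd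
  have hqc : (T.q d)⁻¹ ≤ T.c := by
    have := q_low T hd
    rw [inv_le_comm₀ hq (by linarith)]; exact this
  have hre : (s + 1 / 2).re = s.re + 1 / 2 := by simp
  have him : (s + 1 / 2).im = s.im := by simp
  have hcos : 0 < Real.cos θ := Real.cos_pos_of_mem_Ioo ⟨by linarith, h1⟩
  have hj : 2 / Real.pi * ζ ≤ Real.cos θ := by
    have := Real.mul_le_sin hζ0.le (by linarith : ζ ≤ Real.pi / 2)
    rw [hθ, Real.cos_pi_div_two_sub]
    exact this
  have hk : (Real.cos θ)⁻¹ ≤ 2 * (2 + y) := by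
    have h2 : (2 / Real.pi * ζ)⁻¹ = Real.pi / 2 * (2 + y) := by
      rw [mul_inv, inv_div, hζ, one_div, inv_inv]
    have h3 : (Real.cos θ)⁻¹ ≤ Real.pi / 2 * (2 + y) := by
      rw [← h2]
      exact inv_anti₀ (by positivity) hj
    nlinarith
  set W : ℝ := D * (2 * (2 + y)) with hW
  have hW1 : 1 ≤ W := by
    rw [hW]
    nlinarith
  have hx : (x0 T d θ)⁻¹ ≤ W := by
    unfold x0
    rw [inv_div, div_eq_mul_inv, hW]
    gcongr
  have hx0 : 0 < x0 T d θ := x0_pos T hd ha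
  set B := 2 * Kd T d θ * cB (Real.pi * x0 T d θ) 3 with hB
  have hBle : B ≤ 480 * T.c * W ^ 8 := by
    rw [hB]
    unfold Kd cB
    have e1 : (x0 T d θ)⁻¹ ^ 2 + (x0 T d θ)⁻¹ ^ 3 ≤ 2 * W ^ 3 := by
      have g1 : (x0 T d θ)⁻¹ ^ 2 ≤ W ^ 2 := by gcongr
      have g2 : (x0 T d θ)⁻¹ ^ 3 ≤ W ^ 3 := by gcongr
      have g3 : W ^ 2 ≤ W ^ 3 := pow_le_pow_right₀ hW1 (by norm_num)
      linarith
    have e2 : (Real.pi * x0 T d θ)⁻¹ ≤ W := by
      rw [mul_inv]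
      have g1 : Real.pi⁻¹ ≤ 1 := inv_le_one_of_one_le₀ (by linarith)
      calc Real.pi⁻¹ * (x0 T d θ)⁻¹ ≤ 1 * W := by gcongr
        _ = W := one_mul W
    calc 2 * (T.c * ((x0 T d θ)⁻¹ ^ 2 + (x0 T d θ)⁻¹ ^ 3)) *
          (((3 + 2).factorial : ℕ) * (Real.pi * x0 T d θ)⁻¹ ^ (3 + 2))
        ≤ 2 * (T.c * (2 * W ^ 3)) * (((3 + 2).factorial : ℕ) * W ^ (3 + 2)) := by gcongr
      _ = _ := by norm_num [Nat.factorial]; ring
  have hM : ‖MM T d 0 (s + 1 / 2)‖ ≤ Real.exp (-(θ * y)) * B := by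
    have h := mm_norm_abs T hd h0 h1 (s + 1 / 2)
    rw [him, ← hy] at h
    refine h.trans ?_
    have hN : |(s + 1 / 2).re - 1| ≤ ((3 : ℕ) : ℝ) := by
      rw [hre, abs_le]; constructor <;> push_cast <;> linarith
    have b1 := ((F_dec T hd ha).conv_norm 3 hN).2
    have b2 := ((F_dec T hd ha').conv_norm 3 hN).2
    rw [Kd_neg, x0_neg] at b2
    gcongr
    split_ifs
    · exact b1
    · exact b2
  have hpow : ‖(2 * Real.pi / (T.q d : ℂ)) ^ (s + 1 / 2)‖ ≤ (2 * Real.pi * T.c) ^ 4 := by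
    rw [q_cast, Complex.norm_cpow_eq_rpow_re_of_pos (by positivity), hre]
    have hA1 : 1 ≤ 2 * Real.pi * T.c := by nlinarith
    calc (2 * Real.pi / T.q d) ^ (s.re + 1 / 2) ≤ (2 * Real.pi * T.c) ^ (s.re + 1 / 2) := by
          apply Real.rpow_le_rpow (by positivity) _ (by linarith)
          rw [div_eq_mul_inv]; gcongr
      _ ≤ (2 * Real.pi * T.c) ^ ((4 : ℕ) : ℝ) :=
          Real.rpow_le_rpow_of_exponent_le hA1 (by push_cast; linarith)
      _ = (2 * Real.pi * T.c) ^ 4 := Real.rpow_natCast _ _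
  have hG := hg (s + 1 / 2) (by rw [hre]; linarith) (by rw [hre]; linarith)
  rw [him, ← hy] at hG
  have hG' : ‖Complex.Gamma (s + 1 / 2)‖⁻¹ ≤ c⁻¹ * Real.exp (Real.pi / 2 * y) := by
    have h1 : c⁻¹ * Real.exp (Real.pi / 2 * y) =
        (c * Real.exp (-(Real.pi / 2 * y)))⁻¹ := by
      rw [mul_inv, Real.exp_neg, inv_inv]
    rw [h1]
    exact inv_anti₀ (by positivity) hG
  rw [ell_eq, norm_mul, norm_mul, norm_inv]
  have hB0 : 0 ≤ Real.exp (-(θ * y)) * B := (norm_nonneg _).trans hM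
  calc ‖(2 * Real.pi / (T.q d : ℂ)) ^ (s + 1 / 2)‖ * ‖Complex.Gamma (s + 1 / 2)‖⁻¹ *
        ‖MM T d 0 (s + 1 / 2)‖
      ≤ (2 * Real.pi * T.c) ^ 4 * (c⁻¹ * Real.exp (Real.pi / 2 * y)) * (Real.exp (-(θ * y)) * B) := by
        gcongr
    _ ≤ (2 * Real.pi * T.c) ^ 4 * (c⁻¹ * Real.exp (Real.pi / 2 * y)) *
        (Real.exp (-(θ * y)) * (480 * T.c * W ^ 8)) := by gcongr
    _ = (2 * Real.pi * T.c) ^ 4 * c⁻¹ * (Real.exp (Real.pi / 2 * y) * Real.exp (-(θ * y))) *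
        (480 * T.c * W ^ 8) := by ring
    _ ≤ (2 * Real.pi * T.c) ^ 4 * c⁻¹ * Real.exp 1 * (480 * T.c * W ^ 8) := by
        rw [← Real.exp_add]
        have e : Real.pi / 2 * y + -(θ * y) = y / (2 + y) := by
          rw [hθ, hζ]; ring
        rw [e]
        have : y / (2 + y) ≤ 1 := by
          rw [div_le_one (by positivity)]; linarith
        gcongr
    _ = _ := by rw [hW, hD]; ring

end Pool.Agent.U693.QT
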