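import Pool.Agent.U693.QT.Vert
import Pool.Agent.U693.QT.Poly
import Pool.Agent.Y703.QT12

set_option autoImplicit false

/-! The number of `d` with many zeros near a given point of the critical line. -/

namespace Pool.Agent.U693.QT

open Complex MeasureTheory Filter Topology Set
open Pool.Agent.Y19.QT Pool.Agent.Y703.QT8 Pool.Agent.Y703.QT12
open Pool.Agent.Y180.QT12b2 (Ep cx Ep_bound Ep_diff Lq_eq lj_le)
open Pool.Agent.Y500.QTZ4 (Dv mj_le cx_norm Lq_mul Lq_analytic)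
open Pool.Agent.H306R2.RZ (js Gk)
open scoped ENNReal ComplexConjugate

variable {Q : ℕ} {lam : ℕ → ℝ} (T : Twists Q lam)

/-- the second sum -/
theorem sum_uuH : ∃ (C : ℝ) (A B : ℕ), 0 < C ∧ ∀ (X Y : ℕ) (Z δ τ t : ℝ), 3 ≤ X → 1 ≤ Y →
    (Y : ℝ) ^ 4 ≤ X → 1 ≤ Z → Z ^ 4 ≤ X → 0 < δ → δ ≤ 1 / 4 → 0 < τ →
    ∑ d ∈ sqf X, ‖vvH T Y δ t d - 1‖ ≤ C * (1 + |t|) ^ B * Real.log X ^ A *
      (X * τ + τ⁻¹ * X * (Y : ℝ) ^ (-δ) * (δ⁻¹) ^ A + τ⁻¹ + X * Z⁻¹ + δ⁻¹ * Z ^ (-δ) * X) := by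
  obtain ⟨C3, A3, B, hC3, h3⟩ := HZ3 T
  obtain ⟨C4, A4, hC4, h4⟩ := Pool.Agent.Y203.QTZ2.Z2 Q lam T.hecke
  obtain ⟨C5, hC5, h5⟩ := Pool.Agent.Y369.QTZ1.Z1 T
  refine ⟨3 + C4 + C5 * C3, A3 + A4, B, by positivity,
    fun X Y Z δ τ t' hX hY hYX hZ hZX hδ hδ1 hτ => ?_⟩
  have hX0 : (0 : ℝ) < X := by exact_mod_cast (by omega : 0 < X)
  have hL := log_ge_one hX
  have htB : 1 ≤ (1 + |t'|) ^ B := one_le_pow₀ (by have := abs_nonneg t'; linarith)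
  set t : ℤ → ℝ := fun d => ‖∑' n : ℕ, if Y < n then ((cY Q lam Y n * js d n *
    Real.exp (-(n / Z)) : ℝ) : ℂ) * (n : ℂ) ^ (-(((1 / 2 : ℝ) : ℂ) + δ + t' * I)) else 0‖ with ht
  have hcard := card_sqf (X := X) (by omega)
  have hre : (((1 / 2 : ℝ) : ℂ) + δ + t' * I).re = 1 / 2 + δ := by simp
  have h6 : ∑ d ∈ sqf X, t d ≤ 3 * X * τ + τ⁻¹ * (C4 * X * (Y : ℝ) ^ (-δ) * (δ⁻¹) ^ A4 + C4) := by
    have h7 : ∀ d ∈ sqf X, t d ≤ τ + τ⁻¹ * t d ^ 2 := by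
      intro d _
      have h8 : 0 ≤ t d := norm_nonneg _
      have h9 : t d * τ ≤ τ ^ 2 + t d ^ 2 := by nlinarith [sq_nonneg (τ - t d), mul_nonneg h8 hτ.le]
      have h10 : t d = t d * τ * τ⁻¹ := by field_simp
      rw [h10]
      calc t d * τ * τ⁻¹ ≤ (τ ^ 2 + t d ^ 2) * τ⁻¹ := by gcongr
        _ = τ + τ⁻¹ * (t d) ^ 2 := by field_simp
        _ = τ + τ⁻¹ * (t d * τ * τ⁻¹) ^ 2 := by rw [← h10]
    refine (Finset.sum_le_sum h7).trans ?_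
    rw [Finset.sum_add_distrib, ← Finset.mul_sum, Finset.sum_const, nsmul_eq_mul]
    have h8 := h4 X Y Z δ (((1 / 2 : ℝ) : ℂ) + δ + t' * I) hX hY hYX hZ hZX hδ hδ1 (by rw [hre])
    gcongr
  have h7 : ∀ d ∈ sqf X, ‖vvH T Y δ t' d - 1‖ ≤ t d + 1 / Z + C5 / δ * Z ^ (-δ) *
      ∫ y : ℝ, ‖T.Lq d (((1 / 2 : ℝ) : ℂ) + y * I)‖ * ‖Mol Q lam Y d (((1 / 2 : ℝ) : ℂ) + y * I)‖ *
        Real.exp (-|y - t'|) :=
    fun d hd => h5 d Y Z (1 / 2) δ t' (sqf_sqf hd) hY hZ le_rfl (by norm_num) hδ hδ1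
  have h8 := h3 X Y (1 / 2) t' hX hY hYX le_rfl (by norm_num)
  have g3 : Real.log X ^ A3 ≤ Real.log X ^ (A3 + A4) := pow_le_pow_right₀ hL (by omega)
  have g0 : 1 ≤ Real.log X ^ (A3 + A4) := one_le_pow₀ hL
  have hδi : 1 ≤ δ⁻¹ := by rw [one_le_inv₀ hδ]; linarith
  have g4 : δ⁻¹ ^ A4 ≤ δ⁻¹ ^ (A3 + A4) := pow_le_pow_right₀ hδi (by omega)
  have hY0 : 0 ≤ (Y : ℝ) ^ (-δ) := by positivity
  have hZ0 : 0 ≤ Z ^ (-δ) := by positivity
  have hZi : 0 ≤ Z⁻¹ := by positivity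
  set Θ : ℝ := (1 + |t'|) ^ B with hΘ
  calc ∑ d ∈ sqf X, ‖vvH T Y δ t' d - 1‖
      ≤ ∑ d ∈ sqf X, (t d + 1 / Z + C5 / δ * Z ^ (-δ) *
      ∫ y : ℝ, ‖T.Lq d (((1 / 2 : ℝ) : ℂ) + y * I)‖ * ‖Mol Q lam Y d (((1 / 2 : ℝ) : ℂ) + y * I)‖ *
        Real.exp (-|y - t'|)) := Finset.sum_le_sum h7
    _ = ∑ d ∈ sqf X, t d + (sqf X).card * (1 / Z) +
        C5 / δ * Z ^ (-δ) * ∑ d ∈ sqf X, ∫ y : ℝ, ‖T.Lq d (((1 / 2 : ℝ) : ℂ) + y * I)‖ *
          ‖Mol Q lam Y d (((1 / 2 : ℝ) : ℂ) + y * I)‖ * Real.exp (-|y - t'|) := by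
        rw [Finset.sum_add_distrib, Finset.sum_add_distrib, Finset.sum_const, nsmul_eq_mul,
          Finset.mul_sum]
    _ ≤ (3 * X * τ + τ⁻¹ * (C4 * X * (Y : ℝ) ^ (-δ) * (δ⁻¹) ^ A4 + C4)) + 3 * X * (1 / Z) +
        C5 / δ * Z ^ (-δ) * (C3 * Θ * X * Real.log X ^ A3) := by gcongr
    _ = 3 * (X * τ) * 1 * 1 + C4 * (τ⁻¹ * X * (Y : ℝ) ^ (-δ) * δ⁻¹ ^ A4) * 1 * 1 + C4 * τ⁻¹ * 1 * 1 +
        3 * (X * Z⁻¹) * 1 * 1 + C5 * C3 * (δ⁻¹ * Z ^ (-δ) * X) * Real.log X ^ A3 * Θ := by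
        rw [one_div, div_eq_mul_inv]; ring
    _ ≤ 3 * (X * τ) * Real.log X ^ (A3 + A4) * Θ +
        C4 * (τ⁻¹ * X * (Y : ℝ) ^ (-δ) * δ⁻¹ ^ (A3 + A4)) * Real.log X ^ (A3 + A4) * Θ +
        C4 * τ⁻¹ * Real.log X ^ (A3 + A4) * Θ +
        3 * (X * Z⁻¹) * Real.log X ^ (A3 + A4) * Θ +
        C5 * C3 * (δ⁻¹ * Z ^ (-δ) * X) * Real.log X ^ (A3 + A4) * Θ := by gcongr
    _ ≤ _ := by
        set Λ := Real.log X ^ (A3 + A4) with hΛ
        have hΛ0 : 0 ≤ Λ := by positivity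
        have hΘ0 : 0 ≤ Θ := by linarith
        have q1 : 0 ≤ (X * τ) * Λ * Θ := by positivity
        have q2 : 0 ≤ (τ⁻¹ * X * (Y : ℝ) ^ (-δ) * δ⁻¹ ^ (A3 + A4)) * Λ * Θ := by positivity
        have q3 : 0 ≤ τ⁻¹ * Λ * Θ := by positivity
        have q4 : 0 ≤ (X * Z⁻¹) * Λ * Θ := by positivity
        have q5 : 0 ≤ (δ⁻¹ * Z ^ (-δ) * X) * Λ * Θ := by positivity
        have hc53 : 0 < C5 * C3 := by positivity
        nlinarith [mul_nonneg hC4.le q1, mul_nonneg hC4.le q2, mul_nonneg hC4.le q3,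
          mul_nonneg hC4.le q4, mul_nonneg hC4.le q5, mul_nonneg hc53.le q1, mul_nonneg hc53.le q2,
          mul_nonneg hc53.le q3, mul_nonneg hc53.le q4, mul_nonneg hc53.le q5]

/-- the number of zeros near a point of the critical line is at most logarithmic -/
theorem zeros_log : ∃ D : ℝ, 1 ≤ D ∧ ∀ (d : ℤ) (X : ℕ) (t : ℝ) (S : Finset ℂ), Squarefree d →
    3 ≤ X → |(d : ℝ)| ≤ X → (∀ ρ ∈ S, ‖ρ - (1 / 2 + t * I)‖ ≤ 1 / 8) →
    (∀ ρ ∈ S, analyticOrderAt (T.Lq d) ρ ≠ ⊤) ∧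
    ∑ ρ ∈ S, ((analyticOrderAt (T.Lq d) ρ).toNat : ℝ) ≤
      D * (Real.log X + Real.log (2 + |t|)) := by
  obtain ⟨C1, A, hC1, hb⟩ := ell_poly T
  obtain ⟨M0, hM0⟩ : ∃ M0, M0 = ∑' n, ‖LSeries.term Dv ((3 / 2 : ℝ) : ℂ) n‖ := ⟨_, rfl⟩
  have hc1 := T.one_le_c
  have hM0n : 0 ≤ M0 := by rw [hM0]; exact tsum_nonneg fun n => norm_nonneg _
  -- the constants
  set R : ℝ := 6 / 5 with hR
  set r : ℝ := 9 / 8 with hr
  have hlogR : 0 < Real.log (R / r) := Real.log_pos (by rw [hR, hr]; norm_num)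
  set K : ℝ := (C1 * T.c + 1) * (M0 + 1) with hK
  have hK1 : 1 ≤ K := by
    rw [hK]
    have h1 : 1 ≤ C1 * T.c + 1 := by
      have : 0 ≤ C1 * T.c := by positivity
      linarith
    have h2 : 1 ≤ M0 + 1 := by linarith
    nlinarith
  have hlogK : 0 ≤ Real.log K := Real.log_nonneg hK1
  set C2 : ℝ := Real.log K + 2 * A with hC2
  have hC2p : 0 ≤ C2 := by positivity
  refine ⟨max 1 (C2 / Real.log (R / r)), le_max_left _ _, fun d X t S hd hX hdX hS => ?_⟩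
  have hX0 : (0 : ℝ) < X := by exact_mod_cast (by omega : 0 < X)
  have hL1 := log_ge_one hX
  have hd1 := one_le_abs hd
  have ht0 := abs_nonneg t
  set c : ℂ := ((3 / 2 : ℝ) : ℂ) + (t : ℂ) * I with hc
  have hcre : c.re = 3 / 2 := by rw [hc]; simp
  have hcim : c.im = t := by rw [hc]; simp
  -- geometry
  have hgeo : ∀ z ∈ Metric.closedBall c R, 3 / 10 ≤ z.re ∧ z.re ≤ 27 / 10 ∧ |z.im| ≤ |t| + 6 / 5 := by
    intro z hz
    rw [Metric.mem_closedBall, dist_eq_norm, hR] at hz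
    have h1 := (Complex.abs_re_le_norm (z - c)).trans hz
    have h2 := (Complex.abs_im_le_norm (z - c)).trans hz
    rw [Complex.sub_re, hcre, abs_le] at h1
    rw [Complex.sub_im, hcim] at h2
    refine ⟨by linarith, by linarith, ?_⟩
    calc |z.im| = |t + (z.im - t)| := by ring_nf
      _ ≤ |t| + |z.im - t| := abs_add_le _ _
      _ ≤ _ := by linarith
  have hfan : AnalyticOnNhd ℂ (T.Lq d) (Metric.closedBall c R) := by
    refine (Lq_analytic T hd).mono ?_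
    intro z hz
    show 1 / 4 < z.re
    linarith [(hgeo z hz).1]
  have hcne : T.Lq d c ≠ 0 := by
    intro h0
    have := Lq_mul T hd (s := c) (by rw [hcre]; norm_num)
    rw [h0, zero_mul] at this
    exact zero_ne_one this
  set M : ℝ := (C1 * T.c + 1) * (X * (2 * (2 + |t|))) ^ A with hM
  have hX1 : (1 : ℝ) ≤ X := by exact_mod_cast (by omega : 1 ≤ X)
  have hbase : 1 ≤ (X : ℝ) * (2 * (2 + |t|)) := by nlinarith
  have hpow1 : 1 ≤ ((X : ℝ) * (2 * (2 + |t|))) ^ A := one_le_pow₀ hbase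
  have hCc : 0 < C1 * T.c := by positivity
  have hM1 : 1 ≤ M := by
    rw [hM]
    nlinarith
  have hbd : ∀ z ∈ Metric.closedBall c R, ‖T.Lq d z‖ ≤ M := by
    intro z hz
    obtain ⟨h1, h2, h3⟩ := hgeo z hz
    have e1 := hb d z hd (by linarith) (by linarith)
    have e2 := Ep_bound T hd (s := z) (by linarith)
    have e3 : T.Lq d z = T.ell d z * Ep T d z := rfl
    have e4 : |(d : ℝ)| * (2 + |z.im|) ≤ X * (2 * (2 + |t|)) := by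
      gcongr
      linarith
    have e5 : (|(d : ℝ)| * (2 + |z.im|)) ^ A ≤ (X * (2 * (2 + |t|))) ^ A :=
      pow_le_pow_left₀ (by positivity) e4 A
    rw [e3, norm_mul]
    calc ‖T.ell d z‖ * ‖Ep T d z‖ ≤ (C1 * (|(d : ℝ)| * (2 + |z.im|)) ^ A) * T.c := by gcongr
      _ ≤ (C1 * (X * (2 * (2 + |t|))) ^ A) * T.c := by gcongr
      _ = (C1 * T.c) * (X * (2 * (2 + |t|))) ^ A := by ring
      _ ≤ (C1 * T.c + 1) * (X * (2 * (2 + |t|))) ^ A := by gcongr; linarith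
      _ = M := by rw [hM]
  have hSr : ∀ ρ ∈ S, ρ ∈ Metric.closedBall c r := by
    intro ρ hρ
    rw [Metric.mem_closedBall, dist_eq_norm, hr]
    have e : ρ - c = (ρ - (1 / 2 + t * I)) + (-1) := by
      rw [hc]; push_cast; ring
    rw [e]
    calc ‖(ρ - (1 / 2 + t * I)) + (-1)‖ ≤ ‖ρ - (1 / 2 + t * I)‖ + ‖(-1 : ℂ)‖ := norm_add_le _ _
      _ ≤ 1 / 8 + 1 := by
          rw [norm_neg, norm_one]
          linarith [hS ρ hρ]
      _ = 9 / 8 := by norm_num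
  obtain ⟨g1, g2⟩ := Pool.Agent.Y500.QTZ4.count (f := T.Lq d) (c := c) (r := r) (R := R) (M := M)
    (by rw [hr]; norm_num) (by rw [hr, hR]; norm_num) hM1 hfan hcne hbd S hSr
  refine ⟨g1, g2.trans ?_⟩
  -- lower bound at the centre
  have hlow : 1 ≤ ‖T.Lq d c‖ * (M0 + 1) := by
    have e1 := Lq_mul T hd (s := c) (by rw [hcre]; norm_num)
    have e2 : ‖T.Lq d c‖ * ‖LSeries (cx (Pool.Agent.Y500.QTZ4.mj Q lam d)) c‖ = 1 := by
      rw [← norm_mul, e1, norm_one]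
    have e3 : ‖LSeries (cx (Pool.Agent.Y500.QTZ4.mj Q lam d)) c‖ ≤ M0 := by
      rw [hM0]
      exact cx_norm (mj_le T.hecke d) (by norm_num) hcre
    calc 1 = ‖T.Lq d c‖ * _ := e2.symm
      _ ≤ ‖T.Lq d c‖ * (M0 + 1) := by gcongr; linarith
  have hnpos : 0 < ‖T.Lq d c‖ := norm_pos_iff.mpr hcne
  have h7 : M / ‖T.Lq d c‖ ≤ K * (X * (2 * (2 + |t|))) ^ A := by
    rw [div_le_iff₀ hnpos, hM, hK]
    have h8 : 0 ≤ (C1 * T.c + 1) * (X * (2 * (2 + |t|))) ^ A := by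
      positivity
    calc (C1 * T.c + 1) * (X * (2 * (2 + |t|))) ^ A
        ≤ ((C1 * T.c + 1) * (X * (2 * (2 + |t|))) ^ A) *
          (‖T.Lq d c‖ * (M0 + 1)) := le_mul_of_one_le_right h8 hlow
      _ = _ := by ring
  have hMpos : 0 < M / ‖T.Lq d c‖ := by positivity
  have hKpos : 0 < K := by linarith
  have hl2 : 0 ≤ Real.log (2 + |t|) := Real.log_nonneg (by linarith)
  have h9 : Real.log (M / ‖T.Lq d c‖) ≤ C2 * (Real.log X + Real.log (2 + |t|)) := by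
    refine (Real.log_le_log hMpos h7).trans ?_
    have h2t : (0 : ℝ) < 2 * (2 + |t|) := by positivity
    have hp : ((X : ℝ) * (2 * (2 + |t|))) ^ A ≠ 0 := by positivity
    rw [Real.log_mul hKpos.ne' hp, Real.log_pow, Real.log_mul hX0.ne' h2t.ne',
      Real.log_mul (x := 2) (y := 2 + |t|) (by norm_num) (by positivity)]
    have hl2' : Real.log 2 ≤ 1 := by have := Real.log_two_lt_d9; linarith
    have hA0 : (0 : ℝ) ≤ A := Nat.cast_nonneg A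
    have hX2 : Real.log 2 ≤ Real.log X := hl2'.trans hL1
    rw [hC2]
    have k1 := mul_nonneg hlogK hl2
    have k2 := mul_nonneg hA0 hl2
    have k3 := mul_nonneg hA0 (sub_nonneg.2 hX2)
    have k4 := mul_nonneg hlogK (sub_nonneg.2 hL1)
    linarith
  calc Real.log (M / ‖T.Lq d c‖) / Real.log (R / r)
      ≤ C2 * (Real.log X + Real.log (2 + |t|)) / Real.log (R / r) := by gcongr
    _ = C2 / Real.log (R / r) * (Real.log X + Real.log (2 + |t|)) := by ring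
    _ ≤ _ := by
        gcongr
        exact le_max_right _ _

end Pool.Agent.U693.QT
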