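import Pool.Agent.U693.QT.Cnt

set_option autoImplicit false

/-! The number of `d` with many zeros near a given point of the critical line: all ranges. -/

namespace Pool.Agent.U693.QT

open Complex MeasureTheory Filter Topology Set
open Pool.Agent.Y19.QT Pool.Agent.Y703.QT8 Pool.Agent.Y703.QT12
open Pool.Agent.H306R2.RZ (js Gk)
open scoped ENNReal ComplexConjugate

variable {Q : ℕ} {lam : ℕ → ℝ} (T : Twists Q lam)

lemma two_pow_exp (r : ℕ) : Real.exp (33 / 50 * r) ≤ 2 ^ r := by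
  have h : (33 / 50 : ℝ) ≤ Real.log 2 := by
    have h1 := Real.log_two_gt_d9
    linarith
  calc Real.exp (33 / 50 * r) ≤ Real.exp (Real.log 2 * r) := by gcongr
    _ = 2 ^ r := by rw [mul_comm, Real.exp_nat_mul, Real.exp_log (by norm_num)]

set_option maxHeartbeats 4000000 in
/-- the middle range -/
theorem card_midH : ∃ (C : ℝ) (A B : ℕ), 0 < C ∧ ∀ (X r : ℕ) (t η : ℝ), 3 ≤ X → 12 ≤ r →
    (r : ℝ) ≤ Real.log X → η ≤ r / (150 * Real.log X) →
    ((SH T X t η r).card : ℝ) ≤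
      C * (1 + |t|) ^ B * X * Real.log X ^ A * Real.exp (-(r / 800)) := by
  obtain ⟨C1, A1, B1, hC1, h1⟩ := sum_vvH T
  obtain ⟨C2, A2, B2, hC2, h2⟩ := sum_uuH T
  refine ⟨81 * C1 + C2 * (2 + 2 * 9 ^ A2 + 1 + 1 + 9), A1 + 2 + (2 * A2 + 1), B1 + B2, by positivity,
    fun X r t η hX hr hrX hη => ?_⟩
  have hX0 : (0 : ℝ) < X := by exact_mod_cast (by omega : 0 < X)
  have hX1 : (1 : ℝ) ≤ X := by exact_mod_cast (by omega : 1 ≤ X)
  have ht1 : 1 ≤ 1 + |t| := by have := abs_nonneg t; linarith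
  have hB1 : (1 + |t|) ^ B1 ≤ (1 + |t|) ^ (B1 + B2) := pow_le_pow_right₀ ht1 (by omega)
  have hB2 : (1 + |t|) ^ B2 ≤ (1 + |t|) ^ (B1 + B2) := pow_le_pow_right₀ ht1 (by omega)
  set Θ := (1 + |t|) ^ (B1 + B2) with hΘ
  have hΘ0 : 0 < Θ := by positivity
  set L := Real.log X with hLdef
  have hr' : (12 : ℝ) ≤ r := by exact_mod_cast hr
  have hL12 : 12 ≤ L := by linarith
  have hL1 : 1 ≤ L := by linarith
  have hXL : Real.exp L = X := Real.exp_log hX0
  set δ : ℝ := r / (100 * L) with hδdef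
  have hδ : 0 < δ := by positivity
  have hδL : δ * L = r / 100 := by rw [hδdef]; field_simp
  have hηδ : η ≤ 2 / 3 * δ := by
    refine hη.trans (le_of_eq ?_)
    rw [hδdef]
    field_simp
    norm_num
  have hδ1 : δ ≤ 1 / 100 := by
    rw [hδdef, div_le_div_iff₀ (by positivity) (by norm_num)]; linarith
  have hδ2 : 1 / L ≤ 9 * δ := by
    rw [hδdef, ← mul_div_assoc, div_le_div_iff₀ (by positivity) (by positivity)]
    nlinarith
  have hδi : δ⁻¹ ≤ 9 * L := by
    rw [hδdef, inv_div, div_le_iff₀ (by positivity)]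
    nlinarith
  set Z : ℝ := (X : ℝ) ^ (1 / 4 : ℝ) with hZdef
  have hZ4 : Z ^ 4 = X := by
    rw [hZdef, ← Real.rpow_natCast, ← Real.rpow_mul hX0.le]
    norm_num
  have hZ1 : 1 ≤ Z := Real.one_le_rpow hX1 (by norm_num)
  have hZ0 : 0 < Z := by linarith
  have hZexp : Z = Real.exp (L / 4) := by
    rw [hZdef, Real.rpow_def_of_pos hX0]
    congr 1
    rw [← hLdef]; ring
  set Y : ℕ := ⌊Z⌋₊ with hYdef
  have hY1 : 1 ≤ Y := Nat.floor_pos.2 hZ1
  have hY1' : (1 : ℝ) ≤ Y := by exact_mod_cast hY1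
  have hYZ : (Y : ℝ) ≤ Z := Nat.floor_le hZ0.le
  have hZY : Z ≤ 2 * Y := by
    have := (Nat.lt_floor_add_one Z).le
    rw [← hYdef] at this
    linarith
  have hYX : (Y : ℝ) ^ 4 ≤ X := by
    rw [← hZ4]; gcongr
  -- exponentials
  set E := Real.exp (-(r / 800)) with hE
  have hE0 : 0 < E := Real.exp_pos _
  have f1 : (X : ℝ) ^ (1 + 32 * δ) = X * Real.exp (8 / 25 * r) := by
    rw [Real.rpow_add hX0, Real.rpow_one, Real.rpow_def_of_pos hX0, ← hLdef]
    congr 2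
    rw [show L * (32 * δ) = 32 * (δ * L) by ring, hδL]
    ring
  have f2 : Z ^ (-δ) = Real.exp (-(r / 400)) := by
    rw [hZexp, ← Real.exp_mul]
    congr 1
    rw [show L / 4 * -δ = -(δ * L) / 4 by ring, hδL]
    ring
  set τ := (Y : ℝ) ^ (-(δ / 2)) with hτdef
  have hτ0 : 0 < τ := Real.rpow_pos_of_pos (by linarith) _
  have f3 : τ ≤ 2 * E := by
    have h3 : τ ≤ (Z / 2) ^ (-(δ / 2)) := by
      rw [hτdef, Real.rpow_neg (by positivity), Real.rpow_neg (by positivity)]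
      apply inv_anti₀ (by positivity)
      apply Real.rpow_le_rpow (by positivity) (by linarith) (by positivity)
    have h4 : (Z / 2) ^ (-(δ / 2)) = Z ^ (-(δ / 2)) * 2 ^ (δ / 2) := by
      rw [Real.div_rpow hZ0.le (by norm_num), Real.rpow_neg (by norm_num : (0 : ℝ) ≤ 2)]
      field_simp
    have h5 : Z ^ (-(δ / 2)) = E := by
      rw [hZexp, ← Real.exp_mul, hE]
      congr 1
      rw [show L / 4 * -(δ / 2) = -(δ * L) / 8 by ring, hδL]
      ring
    have h6 : (2 : ℝ) ^ (δ / 2) ≤ 2 := by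
      calc (2 : ℝ) ^ (δ / 2) ≤ 2 ^ (1 : ℝ) :=
            Real.rpow_le_rpow_of_exponent_le (by norm_num) (by linarith)
        _ = 2 := Real.rpow_one 2
    rw [h4, h5] at h3
    nlinarith
  have f4 : τ⁻¹ * (Y : ℝ) ^ (-δ) = τ := by
    have : (Y : ℝ) ^ (-δ) = τ * τ := by
      rw [hτdef, ← Real.rpow_add (by linarith)]; congr 1; ring
    rw [this]; field_simp
  have f5 : τ⁻¹ ≤ X * E := by
    have h3 : τ⁻¹ = (Y : ℝ) ^ (δ / 2) := by
      rw [hτdef, Real.rpow_neg (by positivity), inv_inv]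
    rw [h3]
    calc (Y : ℝ) ^ (δ / 2) ≤ Z ^ (δ / 2) := Real.rpow_le_rpow (by positivity) hYZ (by positivity)
      _ = Real.exp (r / 800) := by
          rw [hZexp, ← Real.exp_mul]
          congr 1
          rw [show L / 4 * (δ / 2) = (δ * L) / 8 by ring, hδL]
          ring
      _ ≤ Real.exp (L + -(r / 800)) := by
          apply Real.exp_le_exp.2
          linarith
      _ = X * E := by rw [Real.exp_add, hXL]
  have f6 : Z⁻¹ ≤ E := by
    rw [hZexp, ← Real.exp_neg, hE]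
    apply Real.exp_le_exp.2
    linarith
  -- the first sum
  have hV : ∑ d ∈ SH T X t η r, ‖vvH T Y δ t d‖ ≤ 81 * C1 * Θ * X * L ^ (A1 + 2) * E := by
    have h3 := h1 X Y r δ t η hX hY1 hYX hδ2 hδ1 hηδ
    rw [f1] at h3
    have h4 : 0 < δ ^ 2 * 2 ^ r := by positivity
    have h5 : 1 ≤ δ ^ 2 * (81 * L ^ 2) := by
      have : (1 : ℝ) ≤ δ * (9 * L) := by
        have := mul_le_mul_of_nonneg_left hδi hδ.le
        rwa [mul_inv_cancel₀ hδ.ne'] at this
      calc (1 : ℝ) = 1 ^ 2 := by norm_num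
        _ ≤ (δ * (9 * L)) ^ 2 := by gcongr
        _ = _ := by ring
    have h6 : Real.exp (8 / 25 * r) ≤ 2 ^ r * E := by
      calc Real.exp (8 / 25 * r) ≤ Real.exp (33 / 50 * r + -(r / 800)) := by
            apply Real.exp_le_exp.2; linarith
        _ = Real.exp (33 / 50 * r) * E := Real.exp_add _ _
        _ ≤ 2 ^ r * E := by gcongr; exact two_pow_exp r
    refine le_of_mul_le_mul_left (h3.trans ?_) h4
    calc C1 * (1 + |t|) ^ B1 * (X * Real.exp (8 / 25 * r)) * L ^ A1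
        ≤ C1 * Θ * (X * (2 ^ r * E)) * L ^ A1 * 1 := by rw [mul_one]; gcongr
      _ ≤ C1 * Θ * (X * (2 ^ r * E)) * L ^ A1 * (δ ^ 2 * (81 * L ^ 2)) := by gcongr
      _ = _ := by ring
  -- the second sum
  have hU : ∑ d ∈ sqf X, ‖vvH T Y δ t d - 1‖ ≤
      C2 * (2 + 2 * 9 ^ A2 + 1 + 1 + 9) * Θ * X * L ^ (2 * A2 + 1) * E := by
    have h3 := h2 X Y Z δ τ t hX hY1 hYX hZ1 hZ4.le hδ (by linarith) hτ0
    rw [f2] at h3
    have g1 : X * τ ≤ 2 * (X * E) := by nlinarith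
    have g2 : τ⁻¹ * X * (Y : ℝ) ^ (-δ) * δ⁻¹ ^ A2 ≤ 2 * (X * E) * (9 ^ A2 * L ^ A2) := by
      calc τ⁻¹ * X * (Y : ℝ) ^ (-δ) * δ⁻¹ ^ A2 = X * (τ⁻¹ * (Y : ℝ) ^ (-δ)) * δ⁻¹ ^ A2 := by ring
        _ = X * τ * δ⁻¹ ^ A2 := by rw [f4]
        _ ≤ (2 * (X * E)) * (9 * L) ^ A2 := by gcongr
        _ = _ := by rw [mul_pow]
    have g3 : X * Z⁻¹ ≤ X * E := by gcongr
    have g4 : δ⁻¹ * Real.exp (-(r / 400)) * X ≤ 9 * L * (X * E) := by
      have : Real.exp (-(r / 400)) ≤ E := by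
        rw [hE]; apply Real.exp_le_exp.2; linarith
      calc δ⁻¹ * Real.exp (-(r / 400)) * X ≤ (9 * L) * E * X := by gcongr
        _ = _ := by ring
    have gL : 1 ≤ L ^ (A2 + 1) := one_le_pow₀ hL1
    have gL2 : L ^ A2 ≤ L ^ (A2 + 1) := pow_le_pow_right₀ hL1 (by omega)
    have gL3 : L ≤ L ^ (A2 + 1) := le_self_pow₀ hL1 (by omega)
    calc ∑ d ∈ sqf X, ‖vvH T Y δ t d - 1‖
        ≤ C2 * (1 + |t|) ^ B2 * L ^ A2 * (X * τ + τ⁻¹ * X * (Y : ℝ) ^ (-δ) * (δ⁻¹) ^ A2 +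
          τ⁻¹ + X * Z⁻¹ + δ⁻¹ * Real.exp (-(r / 400)) * X) := h3
      _ ≤ C2 * Θ * L ^ A2 * (2 * (X * E) * 1 + 2 * (X * E) * (9 ^ A2 * L ^ A2) + X * E * 1 +
          X * E * 1 + 9 * L * (X * E)) := by
          rw [mul_one, mul_one]
          gcongr
      _ ≤ C2 * Θ * L ^ A2 * (2 * (X * E) * L ^ (A2 + 1) + 2 * (X * E) * (9 ^ A2 * L ^ (A2 + 1)) +
          X * E * L ^ (A2 + 1) + X * E * L ^ (A2 + 1) + 9 * L ^ (A2 + 1) * (X * E)) := by
          gcongr
      _ = _ := by ring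
  -- conclusion
  have hcount : ((SH T X t η r).card : ℝ) ≤ ∑ d ∈ SH T X t η r, ‖vvH T Y δ t d‖ +
      ∑ d ∈ sqf X, ‖vvH T Y δ t d - 1‖ := by
    calc ((SH T X t η r).card : ℝ) = ∑ d ∈ SH T X t η r, (1 : ℝ) := by simp
      _ ≤ ∑ d ∈ SH T X t η r, (‖vvH T Y δ t d‖ + ‖vvH T Y δ t d - 1‖) := by
          refine Finset.sum_le_sum fun d _ => ?_
          have := norm_sub_le (vvH T Y δ t d) (vvH T Y δ t d - 1)
          simpa using this
      _ = ∑ d ∈ SH T X t η r, ‖vvH T Y δ t d‖ + ∑ d ∈ SH T X t η r, ‖vvH T Y δ t d - 1‖ :=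
          Finset.sum_add_distrib
      _ ≤ _ := by
          gcongr
          exact SH_sub T X t η r
  have p1 : L ^ (A1 + 2) ≤ L ^ (A1 + 2 + (2 * A2 + 1)) := pow_le_pow_right₀ hL1 (by omega)
  have p2 : L ^ (2 * A2 + 1) ≤ L ^ (A1 + 2 + (2 * A2 + 1)) := pow_le_pow_right₀ hL1 (by omega)
  calc ((SH T X t η r).card : ℝ) ≤ 81 * C1 * Θ * X * L ^ (A1 + 2) * E +
        C2 * (2 + 2 * 9 ^ A2 + 1 + 1 + 9) * Θ * X * L ^ (2 * A2 + 1) * E := by linarith
    _ ≤ 81 * C1 * Θ * X * L ^ (A1 + 2 + (2 * A2 + 1)) * E +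
        C2 * (2 + 2 * 9 ^ A2 + 1 + 1 + 9) * Θ * X * L ^ (A1 + 2 + (2 * A2 + 1)) * E := by gcongr
    _ = _ := by ring

lemma SH_anti {X : ℕ} {t η : ℝ} {s r : ℕ} (h : s ≤ r) : SH T X t η r ⊆ SH T X t η s := by
  intro d hd
  obtain ⟨hd1, S, h1, h2, h3⟩ := (mem_SH T).1 hd
  exact (mem_SH T).2 ⟨hd1, S, h1, h2, h.trans h3⟩

/-- all numbers of zeros -/
theorem card_allH : ∃ (C c : ℝ) (A B : ℕ), 0 < C ∧ 0 < c ∧ c ≤ 1 / 800 ∧
    ∀ (X r : ℕ) (t η : ℝ), 3 ≤ X → 0 ≤ η → η ≤ 1 / 200 →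
    ((SH T X t η r).card : ℝ) ≤
      C * Real.exp (η * Real.log X) * (1 + |t|) ^ B * X * Real.log X ^ A * Real.exp (-(c * r)) := by
  obtain ⟨C1, A, B, hC1, h1⟩ := card_midH T
  obtain ⟨D, hD, h2⟩ := zeros_log T
  have hD0 : 0 < D := by linarith
  set c : ℝ := 1 / (800 * D) with hc
  have hc0 : 0 < c := by positivity
  have hc1 : c ≤ 1 / 800 := one_div_le_one_div_of_le (by norm_num) (by linarith)
  have hcD : c * D = 1 / 800 := by rw [hc]; field_simp
  refine ⟨(3 + C1) * Real.exp 12 * 2, c, A, B + 1, by positivity, hc0, hc1,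
    fun X r t η hX hη0 hη1 => ?_⟩
  have hX0 : (0 : ℝ) < X := by exact_mod_cast (by omega : 0 < X)
  have hL1 := log_ge_one hX
  have ht0 := abs_nonneg t
  set L := Real.log X with hLdef
  have hL0 : 0 < L := by linarith
  have hLA : 1 ≤ L ^ A := one_le_pow₀ hL1
  set l2 := Real.log (2 + |t|) with hl2
  have hl20 : 0 ≤ l2 := Real.log_nonneg (by linarith)
  have hexp2 : Real.exp (l2 / 800) ≤ 2 * (1 + |t|) := by
    calc Real.exp (l2 / 800) ≤ Real.exp l2 := Real.exp_le_exp.2 (by linarith)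
      _ = 2 + |t| := Real.exp_log (by linarith)
      _ ≤ 2 * (1 + |t|) := by linarith
  set Θ := (1 + |t|) ^ B with hΘ
  have hΘ1 : 1 ≤ Θ := one_le_pow₀ (by linarith)
  have hηL : 0 ≤ η * L := by positivity
  have hE1 : 1 ≤ Real.exp (η * L) := Real.one_le_exp hηL
  have triv : ((SH T X t η r).card : ℝ) ≤ 3 * X := by
    refine le_trans ?_ (card_sqf (X := X) (by omega))
    exact_mod_cast Finset.card_le_card (SH_sub T X t η r)
  have small : (c * r : ℝ) ≤ 12 + η * L + l2 / 800 →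
      ((SH T X t η r).card : ℝ) ≤ (3 + C1) * Real.exp 12 * 2 * Real.exp (η * L) *
        (1 + |t|) ^ (B + 1) * X * L ^ A * Real.exp (-(c * r)) := by
    intro hr
    have e1 : 1 ≤ Real.exp 12 * Real.exp (η * L) * Real.exp (l2 / 800) * Real.exp (-(c * r)) := by
      rw [← Real.exp_add, ← Real.exp_add, ← Real.exp_add, Real.one_le_exp_iff]
      linarith
    calc ((SH T X t η r).card : ℝ) ≤ 3 * X * 1 * 1 * 1 := by linarith
      _ ≤ (3 + C1) * X * L ^ A * Θ *
          (Real.exp 12 * Real.exp (η * L) * Real.exp (l2 / 800) * Real.exp (-(c * r))) := by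
          gcongr; linarith
      _ ≤ (3 + C1) * X * L ^ A * Θ *
          (Real.exp 12 * Real.exp (η * L) * (2 * (1 + |t|)) * Real.exp (-(c * r))) := by
          gcongr
      _ = _ := by rw [hΘ, pow_succ]; ring
  rcases Nat.lt_or_ge r 12 with hr | hr
  · apply small
    have : (r : ℝ) ≤ 12 := by exact_mod_cast hr.le
    have : c * r ≤ 1 * 12 := by gcongr; linarith
    have : 0 ≤ l2 / 800 := by positivity
    linarith
  have hr0 : (0 : ℝ) ≤ r := Nat.cast_nonneg r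
  rcases lt_or_ge (r : ℝ) (150 * (η * L)) with hrη | hrη
  · apply small
    have : c * r ≤ 1 / 800 * (150 * (η * L)) := by gcongr
    have : 0 ≤ l2 / 800 := by positivity
    linarith
  rcases le_or_gt (r : ℝ) L with hrL | hrL
  · refine (h1 X r t η hX hr hrL ?_).trans ?_
    · rw [le_div_iff₀ (by positivity)]; linarith
    have e2 : Real.exp (-(r / 800 : ℝ)) ≤ Real.exp 12 * Real.exp (-(c * r)) := by
      rw [← Real.exp_add]
      apply Real.exp_le_exp.2
      have : c * r ≤ 1 / 800 * r := by gcongr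
      linarith
    calc C1 * Θ * X * L ^ A * Real.exp (-(r / 800 : ℝ))
        ≤ (3 + C1) * Θ * X * L ^ A * (Real.exp 12 * Real.exp (-(c * r))) := by
          gcongr; linarith
      _ = (3 + C1) * Real.exp 12 * Θ * X * L ^ A * Real.exp (-(c * r)) * 1 * 1 := by ring
      _ ≤ (3 + C1) * Real.exp 12 * Θ * X * L ^ A * Real.exp (-(c * r)) * Real.exp (η * L) *
          (2 * (1 + |t|)) := by
          gcongr
          linarith
      _ = _ := by rw [hΘ, pow_succ]; ring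
  rcases le_or_gt (r : ℝ) (D * (L + l2)) with hrD | hrD
  · have hcr : c * r ≤ (L + l2) / 800 := by
      calc c * r ≤ c * (D * (L + l2)) := by gcongr
        _ = (c * D) * (L + l2) := by ring
        _ = _ := by rw [hcD]; ring
    rcases lt_or_ge L 12 with hL12 | hL12
    · apply small
      linarith
    · set s := ⌊L⌋₊ with hs
      have hs12 : 12 ≤ s := Nat.le_floor (by exact_mod_cast hL12)
      have hsL : (s : ℝ) ≤ L := Nat.floor_le (by linarith)
      have hLs : L ≤ s + 1 := (Nat.lt_floor_add_one L).le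
      have hsr : s ≤ r := by
        have : (s : ℝ) ≤ r := by linarith
        exact_mod_cast this
      have e2 : Real.exp (-(s / 800 : ℝ)) ≤ Real.exp 12 * Real.exp (l2 / 800) * Real.exp (-(c * r)) := by
        rw [← Real.exp_add, ← Real.exp_add]
        apply Real.exp_le_exp.2
        linarith
      calc ((SH T X t η r).card : ℝ) ≤ ((SH T X t η s).card : ℝ) := by
            exact_mod_cast Finset.card_le_card (SH_anti T hsr)
        _ ≤ C1 * Θ * X * L ^ A * Real.exp (-(s / 800 : ℝ)) := by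
            refine h1 X s t η hX hs12 hsL ?_
            rw [le_div_iff₀ (by positivity)]
            nlinarith
        _ ≤ (3 + C1) * Θ * X * L ^ A * (Real.exp 12 * Real.exp (l2 / 800) * Real.exp (-(c * r))) := by
            gcongr; linarith
        _ ≤ (3 + C1) * Θ * X * L ^ A * (Real.exp 12 * (2 * (1 + |t|)) * Real.exp (-(c * r))) := by
            gcongr
        _ = (3 + C1) * Real.exp 12 * 2 * 1 * (Θ * (1 + |t|)) * X * L ^ A * Real.exp (-(c * r)) := by
            ring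
        _ ≤ (3 + C1) * Real.exp 12 * 2 * Real.exp (η * L) * (Θ * (1 + |t|)) * X * L ^ A *
            Real.exp (-(c * r)) := by gcongr
        _ = _ := by rw [hΘ, pow_succ]
  · have hempty : SH T X t η r = ∅ := by
      rw [Finset.eq_empty_iff_forall_notMem]
      intro d hd
      obtain ⟨hd1, S, h3, h4, h5⟩ := (mem_SH T).1 hd
      have h6 := (h2 d X t S (sqf_sqf hd1) hX (sqf_abs hd1)
        (fun ρ hρ => (h3 ρ hρ).trans (by linarith))).2
      have h7 : (r : ℝ) ≤ ∑ ρ ∈ S, ((analyticOrderAt (T.Lq d) ρ).toNat : ℝ) := by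
        exact_mod_cast h5
      linarith
    rw [hempty]
    simp only [Finset.card_empty, Nat.cast_zero]
    positivity

end Pool.Agent.U693.QT
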