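import Pool.Agent.Y180.QT12d1

set_option autoImplicit false

/-! Many zeros near `1/2` force a large mean value. -/

namespace Pool.Agent.U693.QT

open Complex MeasureTheory Filter Topology
open Pool.Agent.Y180.QT12d1
open scoped ENNReal

/-- division by several zeros -/
theorem exists_fact {L : ℂ → ℂ} {U : Set ℂ} (hU : IsOpen U) (hL : DifferentiableOn ℂ L U)
    (S : Finset ℂ) (m : ℂ → ℕ) (hS : ∀ ρ ∈ S, ρ ∈ U)
    (hm : ∀ ρ ∈ S, (m ρ : ℕ∞) ≤ analyticOrderAt L ρ) :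
    ∃ g : ℂ → ℂ, DifferentiableOn ℂ g U ∧ ∀ z ∈ U, L z = (∏ ρ ∈ S, (z - ρ) ^ m ρ) * g z := by
  classical
  induction S using Finset.induction_on with
  | empty => exact ⟨L, hL, fun z _ => by simp⟩
  | insert a S ha ih =>
    obtain ⟨g, hg1, hg2⟩ := ih (fun ρ hρ => hS ρ (Finset.mem_insert_of_mem hρ))
      (fun ρ hρ => hm ρ (Finset.mem_insert_of_mem hρ))
    have haU : a ∈ U := hS a (Finset.mem_insert_self _ _)
    have hga : AnalyticAt ℂ g a := hg1.analyticAt (hU.mem_nhds haU)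
    have hP : Differentiable ℂ (fun z : ℂ => ∏ ρ ∈ S, (z - ρ) ^ m ρ) := by
      apply Differentiable.fun_finsetProd
      intro ρ _
      exact (differentiable_id.sub_const ρ).pow _
    have hPa : AnalyticAt ℂ (fun z : ℂ => ∏ ρ ∈ S, (z - ρ) ^ m ρ) a := hP.analyticAt a
    have hPne : (∏ ρ ∈ S, (a - ρ) ^ m ρ) ≠ 0 := by
      rw [Finset.prod_ne_zero_iff]
      intro ρ hρ
      exact pow_ne_zero _ (sub_ne_zero.2 (fun h => ha (h ▸ hρ)))
    have hord : analyticOrderAt L a = analyticOrderAt g a := by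
      have h1 : L =ᶠ[𝓝 a] ((fun z : ℂ => ∏ ρ ∈ S, (z - ρ) ^ m ρ) * g) := by
        filter_upwards [hU.mem_nhds haU] with z hz
        exact hg2 z hz
      rw [analyticOrderAt_congr h1, analyticOrderAt_mul hPa hga,
        hPa.analyticOrderAt_eq_zero.2 hPne, zero_add]
    have hma : (m a : ℕ∞) ≤ analyticOrderAt g a := by
      rw [← hord]
      exact hm a (Finset.mem_insert_self _ _)
    obtain ⟨g', hg1', hg2'⟩ := exists_quot hU haU hg1 hma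
    refine ⟨g', hg1', fun z hz => ?_⟩
    rw [Finset.prod_insert ha, hg2 z hz, hg2' z hz]
    ring

/-- step A -/
theorem stepA' {L M : ℂ → ℂ} {δ : ℝ} (hδ : 0 < δ)
    (hL : DifferentiableOn ℂ L (Metric.ball (1 / 2) (20 * δ)))
    (hM : DifferentiableOn ℂ M (Metric.ball (1 / 2) (20 * δ)))
    {S : Finset ℂ} {m : ℂ → ℕ} (hS : ∀ ρ ∈ S, ‖ρ - 1 / 2‖ ≤ 2 / 3 * δ)
    (hm : ∀ ρ ∈ S, (m ρ : ℕ∞) ≤ analyticOrderAt L ρ) {R : ℝ} (hR1 : 5 * δ ≤ R) (hR2 : R ≤ 8 * δ) :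
    ENNReal.ofReal (2 * Real.pi) *
      ENNReal.ofReal (2 ^ (∑ ρ ∈ S, m ρ) * ‖L (1 / 2 + δ) * M (1 / 2 + δ)‖) ≤
      ∫⁻ θ in Set.Ioo (-Real.pi) Real.pi, ‖L (1 / 2 + δ + ((R * Real.cos θ : ℝ) +
        (R * Real.sin θ : ℝ) * I))‖ₑ * ‖M (1 / 2 + δ + ((R * Real.cos θ : ℝ) +
        (R * Real.sin θ : ℝ) * I))‖ₑ := by
  set N : ℕ := ∑ ρ ∈ S, m ρ with hN
  obtain ⟨g, hg1, hg2⟩ := exists_fact Metric.isOpen_ball hL S m (fun ρ hρ => by
    rw [Metric.mem_ball, dist_eq_norm]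
    have := hS ρ hρ
    linarith) hm
  set P : ℂ → ℂ := fun z => ∏ ρ ∈ S, (z - ρ) ^ m ρ with hP
  have hR0 : 0 < R := by linarith
  have hδn : ‖(δ : ℂ)‖ = δ := by rw [Complex.norm_real, Real.norm_eq_abs, abs_of_pos hδ]
  have hsub : Metric.closedBall (1 / 2 + δ : ℂ) R ⊆ Metric.ball (1 / 2 : ℂ) (20 * δ) := by
    intro z hz
    rw [Metric.mem_closedBall, dist_eq_norm] at hz
    rw [Metric.mem_ball, dist_eq_norm]
    calc ‖z - 1 / 2‖ = ‖(z - (1 / 2 + δ)) + δ‖ := by congr 1; ring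
      _ ≤ ‖z - (1 / 2 + δ)‖ + ‖(δ : ℂ)‖ := norm_add_le _ _
      _ ≤ R + δ := by
        rw [hδn]
        linarith
      _ < 20 * δ := by linarith
  have h1 := circle (H := fun z => g z * M z) hR0 ((hg1.mul hM).mono hsub)
  have hc : ∀ θ : ℝ, circleMap (1 / 2 + δ : ℂ) R θ = 1 / 2 + δ + ((R * Real.cos θ : ℝ) +
      (R * Real.sin θ : ℝ) * I) := by
    intro θ
    unfold circleMap
    rw [Complex.exp_mul_I]
    push_cast
    ring
  have hPlow : ∀ z : ℂ, R ≤ ‖z - (1 / 2 + δ)‖ → (10 / 3 * δ) ^ N ≤ ‖P z‖ := by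
    intro z hz
    rw [hP]
    dsimp only
    rw [norm_prod, hN, ← Finset.prod_pow_eq_pow_sum]
    refine Finset.prod_le_prod (fun ρ _ => by positivity) fun ρ hρ => ?_
    rw [norm_pow]
    refine pow_le_pow_left₀ (by positivity) ?_ _
    have h5 : ‖z - (1 / 2 + δ)‖ ≤ ‖z - ρ‖ + (‖ρ - 1 / 2‖ + ‖(δ : ℂ)‖) := by
      have e : z - (1 / 2 + δ) = (z - ρ) + ((ρ - 1 / 2) - δ) := by ring
      rw [e]
      exact (norm_add_le _ _).trans (by gcongr; exact norm_sub_le _ _)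
    rw [hδn] at h5
    have := hS ρ hρ
    linarith
  have hPup : ‖P (1 / 2 + δ)‖ ≤ (5 / 3 * δ) ^ N := by
    rw [hP]
    dsimp only
    rw [norm_prod, hN, ← Finset.prod_pow_eq_pow_sum]
    refine Finset.prod_le_prod (fun ρ _ => norm_nonneg _) fun ρ hρ => ?_
    rw [norm_pow]
    refine pow_le_pow_left₀ (norm_nonneg _) ?_ _
    have h5 : ‖(1 / 2 + δ : ℂ) - ρ‖ ≤ ‖ρ - 1 / 2‖ + ‖(δ : ℂ)‖ := by
      have e : (1 / 2 + δ : ℂ) - ρ = -((ρ - 1 / 2) - δ) := by ring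
      rw [e, norm_neg]
      exact norm_sub_le _ _
    rw [hδn] at h5
    have := hS ρ hρ
    linarith
  have h2 : ∀ θ : ℝ, ENNReal.ofReal ((10 / 3 * δ) ^ N) *
      ‖g (circleMap (1 / 2 + δ : ℂ) R θ) * M (circleMap (1 / 2 + δ : ℂ) R θ)‖ₑ ≤
      ‖L (1 / 2 + δ + ((R * Real.cos θ : ℝ) + (R * Real.sin θ : ℝ) * I))‖ₑ *
        ‖M (1 / 2 + δ + ((R * Real.cos θ : ℝ) + (R * Real.sin θ : ℝ) * I))‖ₑ := by
    intro θ
    rw [← hc θ]
    set z := circleMap (1 / 2 + δ : ℂ) R θ with hz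
    have hzs : z ∈ Metric.closedBall (1 / 2 + δ : ℂ) R :=
      Metric.sphere_subset_closedBall (circleMap_mem_sphere _ hR0.le θ)
    have hzd : ‖z - (1 / 2 + δ)‖ = R := by
      have := circleMap_mem_sphere (1 / 2 + δ : ℂ) hR0.le θ
      rwa [mem_sphere_iff_norm] at this
    have h6 : L z = P z * g z := hg2 z (hsub hzs)
    rw [h6, enorm_mul, enorm_mul, ← mul_assoc]
    gcongr
    rw [← ofReal_norm]
    exact ENNReal.ofReal_le_ofReal (hPlow z hzd.ge)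
  have h3 : ENNReal.ofReal (2 ^ N * ‖L (1 / 2 + δ) * M (1 / 2 + δ)‖) ≤
      ENNReal.ofReal ((10 / 3 * δ) ^ N) * ‖g (1 / 2 + δ) * M (1 / 2 + δ)‖ₑ := by
    have h6 : L (1 / 2 + δ) = P (1 / 2 + δ) * g (1 / 2 + δ) :=
      hg2 _ (hsub (Metric.mem_closedBall_self hR0.le))
    rw [h6, ← ofReal_norm, ← ENNReal.ofReal_mul (by positivity)]
    apply ENNReal.ofReal_le_ofReal
    rw [mul_assoc (P _), norm_mul (P _), ← mul_assoc]
    gcongr
    calc 2 ^ N * ‖P (1 / 2 + δ)‖ ≤ 2 ^ N * (5 / 3 * δ) ^ N := by gcongr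
      _ = (10 / 3 * δ) ^ N := by rw [← mul_pow]; congr 1; ring
  calc ENNReal.ofReal (2 * Real.pi) * ENNReal.ofReal (2 ^ N * ‖L (1 / 2 + δ) * M (1 / 2 + δ)‖)
      ≤ ENNReal.ofReal (2 * Real.pi) * (ENNReal.ofReal ((10 / 3 * δ) ^ N) *
        ‖g (1 / 2 + δ) * M (1 / 2 + δ)‖ₑ) := by gcongr
    _ = ENNReal.ofReal ((10 / 3 * δ) ^ N) * (ENNReal.ofReal (2 * Real.pi) *
        ‖g (1 / 2 + δ) * M (1 / 2 + δ)‖ₑ) := by ring
    _ ≤ ENNReal.ofReal ((10 / 3 * δ) ^ N) * ∫⁻ θ in Set.Ioo (-Real.pi) Real.pi,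
        ‖g (circleMap (1 / 2 + δ : ℂ) R θ) * M (circleMap (1 / 2 + δ : ℂ) R θ)‖ₑ := by gcongr
    _ = ∫⁻ θ in Set.Ioo (-Real.pi) Real.pi, ENNReal.ofReal ((10 / 3 * δ) ^ N) *
        ‖g (circleMap (1 / 2 + δ : ℂ) R θ) * M (circleMap (1 / 2 + δ : ℂ) R θ)‖ₑ := by
        rw [lintegral_const_mul' _ _ ENNReal.ofReal_ne_top]
    _ ≤ _ := lintegral_mono fun θ => h2 θ

/-- step B -/
theorem stepB' {L M : ℂ → ℂ} {δ : ℝ} (hδ : 0 < δ)
    (hL : DifferentiableOn ℂ L (Metric.ball (1 / 2) (20 * δ)))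
    (hM : DifferentiableOn ℂ M (Metric.ball (1 / 2) (20 * δ)))
    {S : Finset ℂ} {m : ℂ → ℕ} (hS : ∀ ρ ∈ S, ‖ρ - 1 / 2‖ ≤ 2 / 3 * δ)
    (hm : ∀ ρ ∈ S, (m ρ : ℕ∞) ≤ analyticOrderAt L ρ) :
    ENNReal.ofReal (3 * δ * (5 * δ)) * (ENNReal.ofReal (2 * Real.pi) *
      ENNReal.ofReal (2 ^ (∑ ρ ∈ S, m ρ) * ‖L (1 / 2 + δ) * M (1 / 2 + δ)‖)) ≤
      ∫⁻ p in Sq δ, ‖L (pt δ p)‖ₑ * ‖M (pt δ p)‖ₑ := by
  set N : ℕ := ∑ ρ ∈ S, m ρ with hN
  set Φ : ℝ × ℝ → ℝ≥0∞ := (Sq δ).indicator fun p => ‖L (pt δ p)‖ₑ * ‖M (pt δ p)‖ₑ with hΦ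
  rw [← lintegral_indicator (measurableSet_Sq δ), ← hΦ, ← lintegral_comp_polarCoord_symm]
  set A : Set (ℝ × ℝ) := Set.Icc (5 * δ) (8 * δ) ×ˢ Set.Ioo (-Real.pi) Real.pi with hA
  have hAt : A ⊆ polarCoord.target := by
    rintro ⟨R, θ⟩ ⟨hR, hθ⟩
    rw [polarCoord_target]
    refine ⟨?_, hθ⟩
    have h1 : 5 * δ ≤ R := hR.1
    exact lt_of_lt_of_le (by positivity) h1
  have hsq : ∀ R θ : ℝ, 5 * δ ≤ R → R ≤ 8 * δ → (R * Real.cos θ, R * Real.sin θ) ∈ Sq δ := by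
    intro R θ h1 h2
    have hR0 : 0 ≤ R := by linarith
    refine ⟨abs_le.1 ?_, abs_le.1 ?_⟩
    · dsimp only
      rw [abs_mul, abs_of_nonneg hR0]
      exact (mul_le_of_le_one_right hR0 (Real.abs_cos_le_one θ)).trans h2
    · dsimp only
      rw [abs_mul, abs_of_nonneg hR0]
      exact (mul_le_of_le_one_right hR0 (Real.abs_sin_le_one θ)).trans h2
  have hAm : MeasurableSet A := measurableSet_Icc.prod measurableSet_Ioo
  have h1 : ∫⁻ p in A, ENNReal.ofReal p.1 * (‖L (pt δ (p.1 * Real.cos p.2, p.1 * Real.sin p.2))‖ₑ *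
      ‖M (pt δ (p.1 * Real.cos p.2, p.1 * Real.sin p.2))‖ₑ) ≤
      ∫⁻ p in polarCoord.target, ENNReal.ofReal p.1 • Φ (polarCoord.symm p) := by
    refine le_trans (le_of_eq ?_) (lintegral_mono_set hAt)
    refine setLIntegral_congr_fun hAm ?_
    rintro ⟨R, θ⟩ ⟨hR, hθ⟩
    dsimp only
    rw [polarCoord_symm_apply, hΦ, Set.indicator_of_mem (hsq R θ hR.1 hR.2), smul_eq_mul]
  refine le_trans ?_ h1
  have hcont : ContinuousOn (fun p : ℝ × ℝ => ((p.1 * Real.cos p.2, p.1 * Real.sin p.2) : ℝ × ℝ)) A :=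
    (by fun_prop : Continuous (fun p : ℝ × ℝ =>
      ((p.1 * Real.cos p.2, p.1 * Real.sin p.2) : ℝ × ℝ))).continuousOn
  have hmaps : Set.MapsTo (fun p : ℝ × ℝ => ((p.1 * Real.cos p.2, p.1 * Real.sin p.2) : ℝ × ℝ)) A
      (Sq δ) := by
    rintro ⟨R, θ⟩ ⟨hR, hθ⟩
    exact hsq R θ hR.1 hR.2
  have hmeas : AEMeasurable (fun p : ℝ × ℝ => ENNReal.ofReal p.1 *
      (‖L (pt δ (p.1 * Real.cos p.2, p.1 * Real.sin p.2))‖ₑ *
      ‖M (pt δ (p.1 * Real.cos p.2, p.1 * Real.sin p.2))‖ₑ))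
      ((volume.restrict (Set.Icc (5 * δ) (8 * δ))).prod
        (volume.restrict (Set.Ioo (-Real.pi) Real.pi))) := by
    rw [Measure.prod_restrict]
    have hl := ((contOn hδ hL).comp hcont hmaps).aestronglyMeasurable hAm (μ := volume)
    have hm := ((contOn hδ hM).comp hcont hmaps).aestronglyMeasurable hAm (μ := volume)
    exact (measurable_fst.ennreal_ofReal.aemeasurable).mul (hl.enorm.mul hm.enorm)
  rw [Measure.volume_eq_prod, ← Measure.prod_restrict, lintegral_prod _ hmeas]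
  calc ENNReal.ofReal (3 * δ * (5 * δ)) * (ENNReal.ofReal (2 * Real.pi) *
        ENNReal.ofReal (2 ^ N * ‖L (1 / 2 + δ) * M (1 / 2 + δ)‖))
      = ∫⁻ _ in Set.Icc (5 * δ) (8 * δ), ENNReal.ofReal (5 * δ) * (ENNReal.ofReal (2 * Real.pi) *
        ENNReal.ofReal (2 ^ N * ‖L (1 / 2 + δ) * M (1 / 2 + δ)‖)) := by
        rw [setLIntegral_const, Real.volume_Icc, ENNReal.ofReal_mul (by positivity)]
        rw [show 8 * δ - 5 * δ = 3 * δ by ring]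
        ring
    _ ≤ _ := by
        refine setLIntegral_mono' measurableSet_Icc fun R hR => ?_
        dsimp only
        have hA2 := stepA' hδ hL hM hS hm hR.1 hR.2
        rw [lintegral_const_mul' _ _ ENNReal.ofReal_ne_top]
        refine mul_le_mul' (ENNReal.ofReal_le_ofReal hR.1) ?_
        exact hA2

/-- the order of a translated function -/
theorem order_shift (f : ℂ → ℂ) (a z : ℂ) :
    analyticOrderAt (fun s => f (s + a)) z = analyticOrderAt f (z + a) := by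
  have hg : AnalyticAt ℂ (fun s : ℂ => s + a) z := by fun_prop
  have hd : deriv (fun s : ℂ => s + a) z ≠ 0 := by
    rw [deriv_add_const]
    simp
  exact analyticOrderAt_comp_of_deriv_ne_zero (f := f) hg hd

end Pool.Agent.U693.QT
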