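import Pool.Agent.U693.QT.Mean
import Pool.Agent.Y19.QT.Fin2
import Pool.Agent.Y19.QT.Fams

set_option autoImplicit false

/-! Bounds of the quality of the Lindelöf hypothesis for almost all quadratic twists. -/

namespace Pool.Agent.U693.QT

open Complex Filter Topology
open Pool.Agent.Y19.QT
open scoped ENNReal Nat

variable {Q : ℕ} {lam : ℕ → ℝ}

theorem sqf_mono {X Y : ℕ} (h : X ≤ Y) : sqf X ⊆ sqf Y := by
  intro d hd
  rw [mem_sqf] at hd ⊢
  exact ⟨hd.1.trans (by exact_mod_cast h), hd.2⟩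

theorem sum_sq_le (s : Finset ℕ) : ∑ n ∈ s, 1 / ((n : ℝ) + 1) ^ 2 ≤ ∑' n : ℕ, 1 / ((n : ℝ) + 1) ^ 2 := by
  have hsum : Summable fun n : ℕ => 1 / ((n : ℝ) + 1) ^ 2 := by
    have h := (summable_nat_add_iff (f := fun n : ℕ => 1 / (n : ℝ) ^ 2) 1).2
      (Real.summable_one_div_nat_pow.2 (by norm_num))
    simpa using h
  exact hsum.sum_le_tsum _ (fun n _ => by positivity)

/-- the radius `1 / (2 log (3 X))` -/
noncomputable def rad (X : ℕ) : ℝ := 1 / (2 * Real.log ((3 * X : ℕ) : ℝ))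

theorem two_lt_log3 {X : ℕ} (hX : 3 ≤ X) : 2 < Real.log ((3 * X : ℕ) : ℝ) := by
  have h1 : Real.log 9 ≤ Real.log ((3 * X : ℕ) : ℝ) :=
    Real.log_le_log (by norm_num) (by exact_mod_cast (by omega : 9 ≤ 3 * X))
  have h2 : Real.log 8 = 3 * Real.log 2 := by
    rw [show (8 : ℝ) = 2 ^ 3 by norm_num, Real.log_pow]
    push_cast
    ring
  have h3 : Real.log 8 < Real.log 9 := Real.log_lt_log (by norm_num) (by norm_num)
  have := Real.log_two_gt_d9
  linarith

theorem log3_le {X : ℕ} (hX : 3 ≤ X) : Real.log ((3 * X : ℕ) : ℝ) ≤ 2 * Real.log X := by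
  have hX0 : (0 : ℝ) < X := by exact_mod_cast (by omega : 0 < X)
  push_cast
  rw [Real.log_mul (by norm_num) hX0.ne']
  have h3 : Real.log 3 ≤ Real.log X := Real.log_le_log (by norm_num) (by exact_mod_cast hX)
  linarith

theorem rad_pos {X : ℕ} (hX : 3 ≤ X) : 0 < rad X := by
  have := two_lt_log3 hX
  unfold rad
  positivity

theorem rad_lt {X : ℕ} (hX : 3 ≤ X) : rad X < 1 / 4 := by
  have := two_lt_log3 hX
  unfold rad
  exact one_div_lt_one_div_of_lt (by norm_num) (by linarith)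

/-- the weighted second moment at arbitrary points near the critical line -/
theorem ell_moment (T : Twists Q lam) : ∃ (C : ℝ) (A B : ℕ), 0 < C ∧
    ∀ (X : ℕ) (z : ℤ → ℂ), 3 ≤ X → (∀ d ∈ sqf X, |(z d).re - 1 / 2| ≤ rad X) →
      ∑ d ∈ sqf X, ‖T.ell d (z d)‖ ^ 2 / (2 + |(z d).im|) ^ B ≤ C * X * Real.log X ^ A := by
  obtain ⟨C, A, B, hC, h⟩ := sum_point T
  set Z : ℝ := ∑' n : ℕ, 1 / ((n : ℝ) + 1) ^ 2 with hZ
  have hZ0 : 0 ≤ Z := tsum_nonneg fun n => by positivity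
  refine ⟨C * 3 * 2 ^ A * (Z + 1), A, B + 2, by positivity, fun X z hX hz => ?_⟩
  have hX0 : (0 : ℝ) < X := by exact_mod_cast (by omega : 0 < X)
  have hl := one_le_log hX
  set L := Real.log X with hLdef
  set n : ℤ → ℕ := fun d => ⌈|(z d).im|⌉₊ with hn
  have hlog : Real.log ((3 * X : ℕ) : ℝ) ≤ 2 * L := log3_le hX
  have hlog0 : 0 ≤ Real.log ((3 * X : ℕ) : ℝ) := by linarith [two_lt_log3 hX]
  have hpt : ∀ d ∈ sqf X, ‖T.ell d (z d)‖ ^ 2 / (2 + |(z d).im|) ^ (B + 2) ≤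
      ‖T.ell d (z d)‖ ^ 2 / ((n d : ℝ) + 1) ^ (B + 2) := by
    intro d _
    have h1 : ((n d : ℝ) + 1) ≤ 2 + |(z d).im| := by
      have := Nat.ceil_lt_add_one (abs_nonneg (z d).im)
      have h2 : ((n d : ℕ) : ℝ) < |(z d).im| + 1 := this
      linarith
    gcongr
  refine (Finset.sum_le_sum hpt).trans ?_
  have hfib := Finset.sum_fiberwise_of_maps_to (s := sqf X) (t := (sqf X).image n) (g := n)
    (fun d hd => Finset.mem_image_of_mem n hd)
    (fun d => ‖T.ell d (z d)‖ ^ 2 / ((n d : ℝ) + 1) ^ (B + 2))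
  rw [← hfib]
  have hin : ∀ m ∈ (sqf X).image n, ∑ d ∈ (sqf X).filter (fun d => n d = m),
      ‖T.ell d (z d)‖ ^ 2 / ((n d : ℝ) + 1) ^ (B + 2) ≤
        C * 3 * 2 ^ A * X * L ^ A * (1 / ((m : ℝ) + 1) ^ 2) := by
    intro m _
    have hm0 : (0 : ℝ) < (m : ℝ) + 1 := by positivity
    have h1 : ∑ d ∈ (sqf X).filter (fun d => n d = m),
        ‖T.ell d (z d)‖ ^ 2 / ((n d : ℝ) + 1) ^ (B + 2) =
        (∑ d ∈ (sqf X).filter (fun d => n d = m), ‖T.ell d (z d)‖ ^ 2) /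
          ((m : ℝ) + 1) ^ (B + 2) := by
      rw [Finset.sum_div]
      refine Finset.sum_congr rfl fun d hd => ?_
      rw [(Finset.mem_filter.1 hd).2]
    rw [h1]
    have h2 := h (3 * X) m z ((sqf X).filter (fun d => n d = m)) (by omega)
      ((Finset.filter_subset _ _).trans (sqf_mono (by omega))) (fun d hd => by
        have h3 : n d = m := (Finset.mem_filter.1 hd).2
        refine ⟨hz d (Finset.mem_filter.1 hd).1, ?_⟩
        rw [← h3]
        exact Nat.le_ceil _)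
    rw [div_le_iff₀ (by positivity)]
    refine h2.trans ?_
    have e1 : C * 3 * 2 ^ A * X * L ^ A * (1 / ((m : ℝ) + 1) ^ 2) * ((m : ℝ) + 1) ^ (B + 2) =
        C * ((m : ℝ) + 1) ^ B * (3 * X) * (2 * L) ^ A := by
      rw [mul_pow, pow_add]
      field_simp
    rw [e1]
    have h4 : Real.log ((3 * X : ℕ) : ℝ) ^ A ≤ (2 * L) ^ A := pow_le_pow_left₀ hlog0 hlog A
    have e2 : (((3 * X : ℕ)) : ℝ) = 3 * X := by push_cast; ring
    rw [e2] at h4 ⊢
    gcongr
  refine (Finset.sum_le_sum hin).trans ?_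
  rw [← Finset.mul_sum]
  have h5 := sum_sq_le ((sqf X).image n)
  rw [← hZ] at h5
  calc C * 3 * 2 ^ A * X * L ^ A * ∑ m ∈ (sqf X).image n, 1 / ((m : ℝ) + 1) ^ 2
      ≤ C * 3 * 2 ^ A * X * L ^ A * (Z + 1) := by
        have : 0 ≤ L := by linarith
        gcongr
        linarith
    _ = _ := by ring

/-- Bounds for all derivatives of `L(E_d, s)` on the critical line `Re s = 1`, on average over the
quadratic twists `E_d : y² = x³ + a d² x + b d³`: `L(E_d, s)` is (uniquely) an entire function;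
with arbitrary orders `k_d` and arbitrary ordinates `t_d`, the sum over squarefree `|d| ≤ X` of
`|L^(k_d)(E_d, 1 + i t_d) / (k_d! (4 log X)^k_d)|² / (2 + |t_d|)^B` is at most `C X (log X)^A`; for every
`K` there is a `K'` such that for all `|d| ≤ X` except `O(X / (log X)^K)`, for all orders `k` and all
real `t` one has `|L^(k)(E_d, 1 + i t)| ≤ k! (4 log X)^k ((log X) (2 + |t|))^K'`. -/
def DerivLaw (a b : ℤ) : Prop :=
  (∀ d : ℤ, Squarefree d → ∃! F : ℂ → ℂ, IsLFun (a * d ^ 2) (b * d ^ 3) F) ∧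
  ∀ F : ℤ → ℂ → ℂ, (∀ d : ℤ, Squarefree d → IsLFun (a * d ^ 2) (b * d ^ 3) (F d)) →
    (∃ (C : ℝ) (A B : ℕ), ∀ (X : ℕ) (k : ℤ → ℕ) (t : ℤ → ℝ), 3 ≤ X →
      ∑ d ∈ sqf X, (‖iteratedDeriv (k d) (F d) (1 + t d * I)‖ /
        ((k d)! * (4 * Real.log X) ^ k d)) ^ 2 / (2 + |t d|) ^ B ≤ C * X * Real.log X ^ A) ∧
    ∀ K : ℕ, ∃ (C : ℝ) (K' : ℕ), ∀ (X : ℕ) (S : Finset ℤ), 3 ≤ X → S ⊆ sqf X →
      (∀ d ∈ S, ∃ (k : ℕ) (t : ℝ), k ! * (4 * Real.log X) ^ k * (Real.log X * (2 + |t|)) ^ K' <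
        ‖iteratedDeriv k (F d) (1 + t * I)‖) →
      (S.card : ℝ) ≤ C * X / Real.log X ^ K

/-- Cauchy's estimate, with a maximizing point -/
theorem deriv_pt {F : ℂ → ℂ} (hF : Differentiable ℂ F) {X : ℕ} (hX : 3 ≤ X) (k : ℕ) (c : ℂ) :
    ∃ z : ℂ, ‖z - c‖ ≤ rad X ∧
      ‖iteratedDeriv k F c‖ / (k ! * (4 * Real.log X) ^ k) ≤ ‖F z‖ := by
  have hr := rad_pos hX
  have hl := one_le_log hX
  obtain ⟨z, hz, hmax⟩ := (isCompact_sphere c (rad X)).exists_isMaxOn
    (NormedSpace.sphere_nonempty.2 hr.le) hF.continuous.norm.continuousOn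
  refine ⟨z, by rw [← dist_eq_norm]; exact (Metric.mem_sphere.1 hz).le, ?_⟩
  have h1 : ‖iteratedDeriv k F c‖ ≤ k ! * ‖F z‖ / rad X ^ k :=
    Complex.norm_iteratedDeriv_le_of_forall_mem_sphere_norm_le k hr
      hF.diffContOnCl (fun w hw => hmax hw)
  rw [div_le_iff₀ (by positivity)]
  refine h1.trans ?_
  have h2 : (rad X)⁻¹ ≤ 4 * Real.log X := by
    unfold rad
    rw [one_div, inv_inv]
    linarith [log3_le hX]
  have h3 : (rad X ^ k)⁻¹ ≤ (4 * Real.log X) ^ k := by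
    rw [← inv_pow]
    exact pow_le_pow_left₀ (by positivity) h2 k
  calc (k ! : ℝ) * ‖F z‖ / rad X ^ k = ‖F z‖ * (k ! * (rad X ^ k)⁻¹) := by ring
    _ ≤ _ := by gcongr

theorem derivLaw_of {a b : ℤ} (hab : 4 * a ^ 3 + 27 * b ^ 2 ≠ 0) (h : HasTwists a b)
    (hL : ∀ d : ℤ, Squarefree d → ∃ F : ℂ → ℂ, IsLFun (a * d ^ 2) (b * d ^ 3) F) :
    DerivLaw a b := by
  obtain ⟨Q, lam, ⟨T⟩, hQ, hlam⟩ := h
  refine ⟨fun d hd => ?_, fun F hF => ?_⟩
  · obtain ⟨F, hF⟩ := hL d hd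
    exact ⟨F, hF, fun G hG => isLFun_unique hG hF⟩
  obtain ⟨C, A, B, hC, hT⟩ := ell_moment T
  set M : ℝ := T.c * (kap ^ Q.primeFactors.card)⁻¹ with hM
  have hkap := kap_pos
  have hTc := T.one_le_c
  have hM0 : 0 < M := by positivity
  have key : ∀ (X : ℕ) (k : ℤ → ℕ) (t : ℤ → ℝ), 3 ≤ X →
      ∑ d ∈ sqf X, (‖iteratedDeriv (k d) (F d) (1 + t d * I)‖ /
        ((k d)! * (4 * Real.log X) ^ k d)) ^ 2 / (2 + |t d|) ^ B ≤
        2 ^ B * M ^ 2 * C * X * Real.log X ^ A := by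
    intro X k t hX
    have hex : ∀ d : ℤ, ∃ z : ℂ, d ∈ sqf X → ‖z - (1 + t d * I)‖ ≤ rad X ∧
      ‖iteratedDeriv (k d) (F d) (1 + t d * I)‖ / ((k d) ! * (4 * Real.log X) ^ (k d)) ≤
        ‖F d z‖ := by
      intro d
      by_cases hd : d ∈ sqf X
      · obtain ⟨z, hz⟩ := deriv_pt (hF d (mem_sqf.1 hd).2).1 hX (k d) (1 + t d * I)
        exact ⟨z, fun _ => hz⟩
      · exact ⟨0, fun h => absurd h hd⟩
    choose z hz using hex
    have hr := rad_pos hX
    have hr1 := rad_lt hX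
    have hre : ∀ d ∈ sqf X, |(z d).re - 1| ≤ rad X := by
      intro d hd
      have h1 := (Complex.abs_re_le_norm (z d - (1 + t d * I))).trans (hz d hd).1
      simpa using h1
    have him : ∀ d ∈ sqf X, |(z d).im| ≤ |t d| + 1 := by
      intro d hd
      have h1 := (Complex.abs_im_le_norm (z d - (1 + t d * I))).trans (hz d hd).1
      have h2 : |(z d).im - t d| ≤ rad X := by simpa using h1
      have h3 : |(z d).im| ≤ |(z d).im - t d| + |t d| := by
        have := abs_add_le ((z d).im - t d) (t d)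
        simpa using this
      linarith
    have hmom := hT X (fun d => z d - 1 / 2) hX (fun d hd => by
      have := hre d hd
      have e : (z d - 1 / 2).re - 1 / 2 = (z d).re - 1 := by
        simp
        ring
      rw [e]
      exact this)
    calc ∑ d ∈ sqf X, (‖iteratedDeriv (k d) (F d) (1 + t d * I)‖ /
          ((k d)! * (4 * Real.log X) ^ k d)) ^ 2 / (2 + |t d|) ^ B
        ≤ ∑ d ∈ sqf X, 2 ^ B * M ^ 2 *
            (‖T.ell d (z d - 1 / 2)‖ ^ 2 / (2 + |(z d - 1 / 2).im|) ^ B) := by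
          refine Finset.sum_le_sum fun d hd => ?_
          have hsd := (mem_sqf.1 hd).2
          have h1 := F_le a b hab Q lam T hQ hlam d hsd (F d) (hF d hsd) (z d - 1 / 2) (by
            have := (abs_le.1 (hre d hd)).1
            have e : (z d - 1 / 2).re = (z d).re - 1 / 2 := by simp
            rw [e]
            linarith)
          rw [sub_add_cancel, ← hM] at h1
          have h2 : (‖iteratedDeriv (k d) (F d) (1 + t d * I)‖ /
              ((k d)! * (4 * Real.log X) ^ k d)) ^ 2 ≤ M ^ 2 * ‖T.ell d (z d - 1 / 2)‖ ^ 2 := by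
            rw [← mul_pow]
            have hl := one_le_log hX
            exact pow_le_pow_left₀ (by positivity) ((hz d hd).2.trans h1) 2
          have e2 : (z d - 1 / 2).im = (z d).im := by simp
          rw [e2]
          have h3 : 2 + |(z d).im| ≤ 2 * (2 + |t d|) := by
            have := him d hd
            have := abs_nonneg (t d)
            linarith
          have h4 : (2 + |(z d).im|) ^ B ≤ 2 ^ B * (2 + |t d|) ^ B := by
            rw [← mul_pow]
            exact pow_le_pow_left₀ (by positivity) h3 B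
          have h5 : 1 / (2 + |t d|) ^ B ≤ 2 ^ B / (2 + |(z d).im|) ^ B := by
            rw [div_le_div_iff₀ (by positivity) (by positivity)]
            linarith
          calc (‖iteratedDeriv (k d) (F d) (1 + t d * I)‖ /
                ((k d)! * (4 * Real.log X) ^ k d)) ^ 2 / (2 + |t d|) ^ B
              ≤ M ^ 2 * ‖T.ell d (z d - 1 / 2)‖ ^ 2 / (2 + |t d|) ^ B := by gcongr
            _ = M ^ 2 * ‖T.ell d (z d - 1 / 2)‖ ^ 2 * (1 / (2 + |t d|) ^ B) := by ring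
            _ ≤ M ^ 2 * ‖T.ell d (z d - 1 / 2)‖ ^ 2 * (2 ^ B / (2 + |(z d).im|) ^ B) := by gcongr
            _ = _ := by ring
      _ = 2 ^ B * M ^ 2 * ∑ d ∈ sqf X,
            ‖T.ell d (z d - 1 / 2)‖ ^ 2 / (2 + |(z d - 1 / 2).im|) ^ B := by
          rw [Finset.mul_sum]
      _ ≤ 2 ^ B * M ^ 2 * (C * X * Real.log X ^ A) := by
          gcongr
      _ = _ := by ring
  refine ⟨⟨2 ^ B * M ^ 2 * C, A, B, key⟩,
    fun K => ⟨2 ^ B * M ^ 2 * C, A + K + B, fun X S hX hS hbig => ?_⟩⟩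
  have hl := one_le_log hX
  have hX0 : (0 : ℝ) < X := by exact_mod_cast (by omega : 0 < X)
  set L := Real.log X with hLdef
  have hL0 : 0 < L := by linarith
  choose! k t ht using hbig
  have h1 : ∀ d ∈ S, L ^ (2 * (A + K + B)) ≤
      (‖iteratedDeriv (k d) (F d) (1 + t d * I)‖ / ((k d)! * (4 * L) ^ k d)) ^ 2 /
        (2 + |t d|) ^ B := by
    intro d hd
    have hb : (1 : ℝ) ≤ 2 + |t d| := by have := abs_nonneg (t d); linarith
    have hb0 : (0 : ℝ) < 2 + |t d| := by linarith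
    rw [le_div_iff₀ (by positivity)]
    have hk0 : 0 < (((k d)! : ℝ) * (4 * L) ^ k d) := by positivity
    have h2 : ((L * (2 + |t d|)) ^ (A + K + B)) ^ 2 ≤
        (‖iteratedDeriv (k d) (F d) (1 + t d * I)‖ / ((k d)! * (4 * L) ^ k d)) ^ 2 := by
      refine pow_le_pow_left₀ (by positivity) ?_ 2
      rw [le_div_iff₀ hk0]
      have := ht d hd
      linarith
    refine le_trans ?_ h2
    have e1 : ((L * (2 + |t d|)) ^ (A + K + B)) ^ 2 =
        L ^ (2 * (A + K + B)) * (2 + |t d|) ^ (2 * (A + K + B)) := by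
      rw [← pow_mul, mul_pow, mul_comm (A + K + B) 2]
    rw [e1]
    gcongr
    omega
  have h3 : (S.card : ℝ) * L ^ (2 * (A + K + B)) ≤ 2 ^ B * M ^ 2 * C * X * L ^ A := by
    calc (S.card : ℝ) * L ^ (2 * (A + K + B)) = ∑ d ∈ S, L ^ (2 * (A + K + B)) := by
          rw [Finset.sum_const, nsmul_eq_mul]
      _ ≤ ∑ d ∈ S, (‖iteratedDeriv (k d) (F d) (1 + t d * I)‖ / ((k d)! * (4 * L) ^ k d)) ^ 2 /
            (2 + |t d|) ^ B := Finset.sum_le_sum h1
      _ ≤ ∑ d ∈ sqf X, (‖iteratedDeriv (k d) (F d) (1 + t d * I)‖ / ((k d)! * (4 * L) ^ k d)) ^ 2 /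
            (2 + |t d|) ^ B :=
          Finset.sum_le_sum_of_subset_of_nonneg hS fun d _ _ => by positivity
      _ ≤ _ := key X k t hX
  rw [le_div_iff₀ (by positivity)]
  have h4 : (S.card : ℝ) * L ^ K * L ^ A ≤ 2 ^ B * M ^ 2 * C * X * L ^ A := by
    refine le_trans ?_ h3
    rw [mul_assoc, ← pow_add]
    gcongr
    omega
  exact le_of_mul_le_mul_right h4 (by positivity)

end Pool.Agent.U693.QT
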