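import Pool.Agent.U693.QT.Cnt2

set_option autoImplicit false

/-! Exponential moments of the numbers of zeros in discs centred on the critical line. -/

namespace Pool.Agent.U693.QT

open Complex MeasureTheory Filter Topology Set
open Pool.Agent.Y19.QT Pool.Agent.Y703.QT8 Pool.Agent.Y703.QT12
open Pool.Agent.H306R2.RZ (js Gk)
open scoped ENNReal ComplexConjugate

/-- the number of zeros `ρ` of `F`, with multiplicities, with `|ρ - c| ≤ r` -/
noncomputable def zball (F : ℂ → ℂ) (c : ℂ) (r : ℝ) : ℝ≥0∞ :=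
  ∑' ρ : ℂ, if F ρ = 0 ∧ ‖ρ - c‖ ≤ r then ((analyticOrderAt F ρ : ℕ∞) : ℝ≥0∞) else 0

theorem zball_mono (F : ℂ → ℂ) {c c' : ℂ} {r r' : ℝ} (h : ‖c - c'‖ + r ≤ r') :
    zball F c r ≤ zball F c' r' := by
  unfold zball
  refine ENNReal.tsum_le_tsum fun ρ => ?_
  by_cases hρ : F ρ = 0 ∧ ‖ρ - c‖ ≤ r
  · have h1 : F ρ = 0 ∧ ‖ρ - c'‖ ≤ r' := by
      refine ⟨hρ.1, ?_⟩
      have e : ρ - c' = (ρ - c) + (c - c') := by ring
      rw [e]
      exact (norm_add_le _ _).trans (by linarith [hρ.2])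
    rw [if_pos hρ, if_pos h1]
  · rw [if_neg hρ]
    exact bot_le

variable {Q : ℕ} {lam : ℕ → ℝ} (T : Twists Q lam)

/-- a finite sum of orders -/
theorem sum_orders {G : ℂ → ℂ} (S : Finset ℂ) (h : ∀ ρ ∈ S, analyticOrderAt G ρ ≠ ⊤) :
    ∑ ρ ∈ S, ((analyticOrderAt G ρ : ℕ∞) : ℝ≥0∞) =
      ((∑ ρ ∈ S, (analyticOrderAt G ρ).toNat : ℕ) : ℝ≥0∞) := by
  rw [Nat.cast_sum]
  refine Finset.sum_congr rfl fun ρ hρ => ?_
  conv_lhs => rw [← ENat.natCast_toNat (h ρ hρ)]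
  exact ENat.toENNReal_coe _

theorem zball_fin : ∃ D : ℝ, 1 ≤ D ∧ ∀ (d : ℤ) (X : ℕ) (t η : ℝ), Squarefree d → 3 ≤ X →
    |(d : ℝ)| ≤ X → η ≤ 1 / 8 →
    zball (T.Lq d) (1 / 2 + t * I) η ≤ ENNReal.ofReal (D * (Real.log X + Real.log (2 + |t|))) := by
  classical
  obtain ⟨D, hD, h⟩ := zeros_log T
  refine ⟨D, hD, fun d X t η hd hX hdX hη => ?_⟩
  unfold zball
  rw [ENNReal.tsum_eq_iSup_sum]
  refine iSup_le fun S => ?_
  rw [← Finset.sum_filter]
  obtain ⟨h1, h2⟩ := h d X t (S.filter fun ρ => T.Lq d ρ = 0 ∧ ‖ρ - (1 / 2 + t * I)‖ ≤ η) hd hX hdX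
    (fun ρ hρ => (Finset.mem_filter.1 hρ).2.2.trans hη)
  rw [sum_orders _ h1, ← ENNReal.ofReal_natCast]
  apply ENNReal.ofReal_le_ofReal
  push_cast
  exact h2

theorem mem_SH_of_lt {X : ℕ} {d : ℤ} (hX : 3 ≤ X) (hd : d ∈ sqf X) {t η : ℝ} (hη : η ≤ 1 / 8)
    {r : ℕ} (hr : (r : ℝ) - 1 < (zball (T.Lq d) (1 / 2 + t * I) η).toReal) :
    d ∈ SH T X t η r := by
  classical
  obtain ⟨D, hD, h⟩ := zeros_log T
  obtain ⟨D', hD', h'⟩ := zball_fin T
  have hfin : zball (T.Lq d) (1 / 2 + t * I) η ≠ ⊤ :=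
    ((h' d X t η (sqf_sqf hd) hX (sqf_abs hd) hη).trans_lt ENNReal.ofReal_lt_top).ne
  rcases Nat.eq_zero_or_pos r with rfl | hr0
  · exact (mem_SH T).2 ⟨hd, ∅, by simp, by simp, by simp⟩
  have hr1 : (0 : ℝ) ≤ (r : ℝ) - 1 := by
    have : (1 : ℝ) ≤ r := by exact_mod_cast hr0
    linarith
  have h1 : ENNReal.ofReal ((r : ℝ) - 1) < zball (T.Lq d) (1 / 2 + t * I) η := by
    rw [← ENNReal.ofReal_toReal hfin]
    exact (ENNReal.ofReal_lt_ofReal_iff_of_nonneg hr1).2 hr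
  unfold zball at h1
  rw [ENNReal.tsum_eq_iSup_sum, lt_iSup_iff] at h1
  obtain ⟨S, hS⟩ := h1
  rw [← Finset.sum_filter] at hS
  set S' := S.filter fun ρ => T.Lq d ρ = 0 ∧ ‖ρ - (1 / 2 + t * I)‖ ≤ η with hS'
  obtain ⟨h2, -⟩ := h d X t S' (sqf_sqf hd) hX (sqf_abs hd)
    (fun ρ hρ => (Finset.mem_filter.1 hρ).2.2.trans hη)
  rw [sum_orders _ h2] at hS
  refine (mem_SH T).2 ⟨hd, S', fun ρ hρ => (Finset.mem_filter.1 hρ).2.2, h2, ?_⟩
  rw [← ENNReal.ofReal_natCast] at hS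
  have h3 := (ENNReal.ofReal_lt_ofReal_iff_of_nonneg hr1).1 hS
  have h4 : (r : ℝ) < ((∑ ρ ∈ S', (analyticOrderAt (T.Lq d) ρ).toNat : ℕ) : ℝ) + 1 := by linarith
  have h5 : r < (∑ ρ ∈ S', (analyticOrderAt (T.Lq d) ρ).toNat) + 1 := by exact_mod_cast h4
  omega

/-- the number of zeros as a real number -/
noncomputable def nz (d : ℤ) (t η : ℝ) : ℝ := (zball (T.Lq d) (1 / 2 + t * I) η).toReal

theorem nz_nonneg (d : ℤ) (t η : ℝ) : 0 ≤ nz T d t η := ENNReal.toReal_nonneg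

/-- the exponential moment at a fixed height and scale -/
theorem mom_fix : ∃ (C c : ℝ) (A B : ℕ), 0 < C ∧ 0 < c ∧ c ≤ 1 / 1600 ∧
    ∀ (X : ℕ) (t η : ℝ), 3 ≤ X → 0 ≤ η → η ≤ 1 / 200 →
      ∑ d ∈ sqf X, Real.exp (c * nz T d t η) ≤
        C * Real.exp (η * Real.log X) * (1 + |t|) ^ B * X * Real.log X ^ A := by
  obtain ⟨C, c, A, B, hC, hc, hc1, h⟩ := card_allH T
  set q := Real.exp (-(c / 2)) with hq
  have hq0 : 0 < q := Real.exp_pos _
  have hq1 : q < 1 := by rw [hq, Real.exp_lt_one_iff]; linarith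
  refine ⟨C * (1 - q)⁻¹, c / 2, A, B, mul_pos hC (inv_pos.2 (by linarith)), by positivity,
    by linarith, fun X t η hX hη0 hη1 => ?_⟩
  have hX0 : (0 : ℝ) < X := by exact_mod_cast (by omega : 0 < X)
  have hL1 := log_ge_one hX
  have ht0 := abs_nonneg t
  set n : ℤ → ℕ := fun d => ⌈nz T d t η⌉₊ with hn
  set R : ℕ := (sqf X).sup n with hR
  have hmem : ∀ d ∈ sqf X, d ∈ SH T X t η (n d) := by
    intro d hd
    refine mem_SH_of_lt T hX hd (by linarith) ?_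
    have h0 := nz_nonneg T d t η
    have h1 := Nat.ceil_lt_add_one h0
    have h2 : (n d : ℝ) < nz T d t η + 1 := h1
    show (n d : ℝ) - 1 < nz T d t η
    linarith
  have step : ∀ d ∈ sqf X, Real.exp (c / 2 * nz T d t η) ≤
      ∑ r ∈ Finset.range (R + 1), if d ∈ SH T X t η r then Real.exp (c / 2 * r) else 0 := by
    intro d hd
    have h1 : n d ∈ Finset.range (R + 1) :=
      Finset.mem_range.2 (Nat.lt_succ_of_le (Finset.le_sup (f := n) hd))
    calc Real.exp (c / 2 * nz T d t η) ≤ Real.exp (c / 2 * (n d : ℕ)) := by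
          apply Real.exp_le_exp.2
          gcongr
          exact Nat.le_ceil _
      _ = if d ∈ SH T X t η (n d) then Real.exp (c / 2 * (n d : ℕ)) else 0 := by
          rw [if_pos (hmem d hd)]
      _ ≤ _ := Finset.single_le_sum
          (f := fun r : ℕ => if d ∈ SH T X t η r then Real.exp (c / 2 * r) else 0)
          (fun r _ => by positivity) h1
  set W : ℝ := C * Real.exp (η * Real.log X) * (1 + |t|) ^ B * X * Real.log X ^ A with hW
  have hW0 : 0 ≤ W := by positivity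
  calc ∑ d ∈ sqf X, Real.exp (c / 2 * nz T d t η)
      ≤ ∑ d ∈ sqf X, ∑ r ∈ Finset.range (R + 1),
        (if d ∈ SH T X t η r then Real.exp (c / 2 * r) else 0) := Finset.sum_le_sum step
    _ = ∑ r ∈ Finset.range (R + 1), ∑ d ∈ sqf X,
        (if d ∈ SH T X t η r then Real.exp (c / 2 * r) else 0) := Finset.sum_comm
    _ = ∑ r ∈ Finset.range (R + 1), ((SH T X t η r).card : ℝ) * Real.exp (c / 2 * r) := by
        refine Finset.sum_congr rfl fun r _ => ?_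
        rw [← Finset.sum_filter, Finset.sum_const, nsmul_eq_mul]
        congr 3
        ext d
        simp only [Finset.mem_filter]
        exact ⟨fun h => h.2, fun h => ⟨SH_sub T X t η r h, h⟩⟩
    _ ≤ ∑ r ∈ Finset.range (R + 1), W * q ^ r := by
        refine Finset.sum_le_sum fun r _ => ?_
        have h3 : Real.exp (-(c * r)) * Real.exp (c / 2 * r) = q ^ r := by
          rw [← Real.exp_add, hq, ← Real.exp_nat_mul]; congr 1; ring
        calc ((SH T X t η r).card : ℝ) * Real.exp (c / 2 * r)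
            ≤ W * Real.exp (-(c * r)) * Real.exp (c / 2 * r) := by
              gcongr; exact h X r t η hX hη0 hη1
          _ = _ := by rw [mul_assoc, h3]
    _ = W * ∑ r ∈ Finset.range (R + 1), q ^ r := by rw [Finset.mul_sum]
    _ ≤ W * (1 - q)⁻¹ := by
        gcongr
        rw [← tsum_geometric_of_lt_one hq0.le hq1]
        exact (summable_geometric_of_lt_one hq0.le hq1).sum_le_tsum _ (fun i _ => by positivity)
    _ = _ := by rw [hW]; ring

end Pool.Agent.U693.QT
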