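import Pool.Agent.U693.QT.Net
import Pool.Agent.Y19.QT.Fin2
import Pool.Agent.Y19.QT.Fams

set_option autoImplicit false

/-! The zeros of the `L`-functions of quadratic twists in small discs centred on the critical line. -/

namespace Pool.Agent.U693.QT

open Complex Filter Topology
open Pool.Agent.Y19.QT Pool.Agent.Y703.QT12
open scoped ENNReal

variable {Q : ℕ} {lam : ℕ → ℝ}

/-- The zeros of the `L`-functions of the quadratic twists `E_d : y² = x³ + a d² x + b d³` of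
`y² = x³ + a x + b`, `d` squarefree, in discs centred on the critical line `Re s = 1`:
`L(E_d, s)` is (uniquely) an entire function; let `N_d(t, η)` be the number of its zeros, with
multiplicities, with `|s - (1 + it)| ≤ η`, where `0 ≤ η ≤ 1/400` (for `η = 0` this is the order of
vanishing at `1 + it`); it is finite. For arbitrary `t_d` and `η_d` the sum over `|d| ≤ X` of
`exp(c N_d(t_d, η_d)) / (X^(2 η_d) (2 + |t_d|)^B)` is at most `C X (log X)^A`. For all `k`, `M`, arbitrary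
`t_d` and `η_d` and every set `S` of squarefree `d`, `|d| ≤ X`, the sum of the `k`-th powers of
`N_d(t_d, η_d) / (1 + log log X + log (2 + |t_d|) + η_d log X)` over `S` is
`O(|S| + X / (log X)^M)`. For every `M` there is a `K'` such that for all `|d| ≤ X` except
`O(X / (log X)^M)`, for all real `t` and all `0 ≤ η ≤ 1/400` one has
`N_d(t, η) ≤ K' (1 + log log X + log (2 + |t|) + η log X)`. -/
def LocalLaw (a b : ℤ) : Prop :=
  (∀ d : ℤ, Squarefree d → ∃! F : ℂ → ℂ, IsLFun (a * d ^ 2) (b * d ^ 3) F) ∧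
  ∀ F : ℤ → ℂ → ℂ, (∀ d : ℤ, Squarefree d → IsLFun (a * d ^ 2) (b * d ^ 3) (F d)) →
    (∀ (d : ℤ) (t η : ℝ), Squarefree d → η ≤ 1 / 400 → zball (F d) (1 + t * I) η ≠ ⊤) ∧
    (∃ (C c : ℝ) (A B : ℕ), 0 < c ∧ ∀ (X : ℕ) (t η : ℤ → ℝ), 3 ≤ X →
      (∀ d ∈ sqf X, 0 ≤ η d ∧ η d ≤ 1 / 400) →
      ∑ d ∈ sqf X, Real.exp (c * (zball (F d) (1 + t d * I) (η d)).toReal) /
        ((X : ℝ) ^ (2 * η d) * (2 + |t d|) ^ B) ≤ C * X * Real.log X ^ A) ∧
    (∀ k M : ℕ, ∃ C : ℝ, ∀ (X : ℕ) (S : Finset ℤ) (t η : ℤ → ℝ), 3 ≤ X → S ⊆ sqf X →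
      (∀ d ∈ S, 0 ≤ η d ∧ η d ≤ 1 / 400) →
      ∑ d ∈ S, ((zball (F d) (1 + t d * I) (η d)).toReal /
        (1 + Real.log (Real.log X) + Real.log (2 + |t d|) + η d * Real.log X)) ^ k ≤
        C * (S.card + X / Real.log X ^ M)) ∧
    ∀ M : ℕ, ∃ C K' : ℝ, ∀ (X : ℕ) (S : Finset ℤ), 3 ≤ X → S ⊆ sqf X →
      (∀ d ∈ S, ∃ t η : ℝ, 0 ≤ η ∧ η ≤ 1 / 400 ∧
        K' * (1 + Real.log (Real.log X) + Real.log (2 + |t|) + η * Real.log X) <
          (zball (F d) (1 + t * I) η).toReal) →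
      (S.card : ℝ) ≤ C * X / Real.log X ^ M

theorem zball_eq (a b : ℤ) (hab : 4 * a ^ 3 + 27 * b ^ 2 ≠ 0) (T : Twists Q lam)
    (hQ : ∀ p : ℕ, p.Prime → (p : ℤ) ∣ 2 * (4 * a ^ 3 + 27 * b ^ 2) → p ∣ Q)
    (hlam : ∀ p : ℕ, p.Prime → ¬ p ∣ Q → lam p = ap a b p / Real.sqrt p)
    (d : ℤ) (hd : Squarefree d) (F : ℂ → ℂ) (hF : IsLFun (a * d ^ 2) (b * d ^ 3) F)
    (t η : ℝ) (hη : η ≤ 1 / 8) : zball F (1 + t * I) η = zball (T.Lq d) (1 / 2 + t * I) η := by
  unfold zball
  rw [← (Equiv.addRight (1 / 2 : ℂ)).tsum_eq]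
  refine tsum_congr fun s => ?_
  have e1 : (Equiv.addRight (1 / 2 : ℂ)) s = s + 1 / 2 := rfl
  have e2 : s + 1 / 2 - (1 + t * I) = s - (1 / 2 + t * I) := by ring
  rw [e1, e2]
  by_cases hs : ‖s - (1 / 2 + t * I)‖ ≤ η
  · have hs' : 1 / 4 < s.re := by
      have h1 := (Complex.abs_re_le_norm _).trans hs
      have e3 : (s - (1 / 2 + t * I)).re = s.re - 1 / 2 := by simp
      rw [e3] at h1
      linarith [(abs_le.1 h1).1]
    have h1 := Pool.Agent.Y203.QTZ5.Z5 a b hab Q lam T hQ hlam d hd F hF s hs'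
    have h2 := zero_iff a b hab T hQ hlam d hd F hF s hs'
    simp only [h2, h1, hs]
  · simp only [hs, and_false, if_false]

/-- from exponential moments to moments over sets -/
theorem moments_of {B A : ℕ} {C c : ℝ} (hc : 0 < c) (n : ℤ → ℝ → ℝ → ℝ)
    (hn : ∀ d t η, 0 ≤ n d t η)
    (h : ∀ (X : ℕ) (t η : ℤ → ℝ), 3 ≤ X → (∀ d ∈ sqf X, 0 ≤ η d ∧ η d ≤ 1 / 400) →
      ∑ d ∈ sqf X, Real.exp (c * n d (t d) (η d) - 2 * (η d * Real.log X)) / (2 + |t d|) ^ B ≤
        C * X * Real.log X ^ A) (k M : ℕ) :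
    ∃ C' : ℝ, 0 < C' ∧ ∀ (X : ℕ) (S : Finset ℤ) (t η : ℤ → ℝ), 3 ≤ X → S ⊆ sqf X →
      (∀ d ∈ S, 0 ≤ η d ∧ η d ≤ 1 / 400) →
      ∑ d ∈ S, (n d (t d) (η d) /
        (1 + Real.log (Real.log X) + Real.log (2 + |t d|) + η d * Real.log X)) ^ k ≤
        C' * (S.card + X / Real.log X ^ M) := by
  classical
  set K : ℝ := 2 * (A + M + B + 2 : ℕ) / c with hK
  have hK0 : 0 < K := by positivity
  refine ⟨K ^ k + (k.factorial * (2 / c) ^ k) * |C|, by positivity,
    fun X S t η hX hS hη => ?_⟩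
  have hl := one_le_log hX
  have hl0 : 0 < Real.log X := by linarith
  have hll : 0 ≤ Real.log (Real.log X) := Real.log_nonneg hl
  have hX0 : (0 : ℝ) ≤ X := Nat.cast_nonneg X
  set L : ℝ := Real.log X with hL
  -- extend `η` by zero
  set η' : ℤ → ℝ := fun d => if d ∈ S then η d else 0 with hη'
  have hη'S : ∀ d ∈ S, η' d = η d := fun d hd => by simp only [hη', if_pos hd]
  have h0 := h X t η' hX (fun d _ => by
    by_cases hd : d ∈ S
    · rw [hη'S d hd]; exact hη d hd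
    · simp only [hη', if_neg hd]; norm_num)
  have h1 : ∑ d ∈ S, Real.exp (c * n d (t d) (η d) - 2 * (η d * L)) / (2 + |t d|) ^ B ≤
      C * X * L ^ A := by
    calc ∑ d ∈ S, Real.exp (c * n d (t d) (η d) - 2 * (η d * L)) / (2 + |t d|) ^ B
        = ∑ d ∈ S, Real.exp (c * n d (t d) (η' d) - 2 * (η' d * L)) / (2 + |t d|) ^ B := by
          refine Finset.sum_congr rfl fun d hd => ?_
          rw [hη'S d hd]
      _ ≤ _ := (Finset.sum_le_sum_of_subset_of_nonneg hS
          (fun d _ _ => by positivity)).trans h0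
  have hpt : ∀ d ∈ S, (n d (t d) (η d) / (1 + Real.log L + Real.log (2 + |t d|) + η d * L)) ^ k ≤
      K ^ k + (k.factorial * (2 / c) ^ k) *
        (Real.exp (c * n d (t d) (η d) - 2 * (η d * L)) / (2 + |t d|) ^ B / L ^ (A + M)) := by
    intro d hd
    have ht0 := abs_nonneg (t d)
    have hl2 : 0 ≤ Real.log (2 + |t d|) := Real.log_nonneg (by linarith)
    have hηL : 0 ≤ η d * L := mul_nonneg (hη d hd).1 hl0.le
    set l2 := Real.log (2 + |t d|) with hl2def
    set w : ℝ := 1 + Real.log L + l2 + η d * L with hw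
    have hw1 : 1 ≤ w := by rw [hw]; linarith
    have hx0 : 0 ≤ n d (t d) (η d) := hn _ _ _
    set x := n d (t d) (η d) with hx
    have hE : (0 : ℝ) ≤ Real.exp (c * x - 2 * (η d * L)) / (2 + |t d|) ^ B / L ^ (A + M) := by
      positivity
    by_cases hxK : x / w ≤ K
    · have h1 := pow_le_pow_left₀ (by positivity) hxK k
      have : 0 ≤ (k.factorial * (2 / c) ^ k) *
        (Real.exp (c * x - 2 * (η d * L)) / (2 + |t d|) ^ B / L ^ (A + M)) := by positivity
      linarith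
    · push Not at hxK
      have hxw : K * w < x := by rwa [lt_div_iff₀ (by linarith)] at hxK
      have hxw2 : x / w ≤ x := div_le_self hx0 hw1
      have h1 : (x / w) ^ k ≤ (k.factorial * (2 / c) ^ k) * Real.exp (c / 2 * x) := by
        have h2 := Real.pow_div_factorial_le_exp (c / 2 * x) (by positivity) k
        rw [div_le_iff₀ (by positivity)] at h2
        have h3 : x ^ k = (2 / c) ^ k * (c / 2 * x) ^ k := by
          rw [← mul_pow]
          congr 1
          field_simp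
        calc (x / w) ^ k ≤ x ^ k := pow_le_pow_left₀ (by positivity) hxw2 k
          _ = (2 / c) ^ k * (c / 2 * x) ^ k := h3
          _ ≤ (2 / c) ^ k * (Real.exp (c / 2 * x) * k.factorial) :=
              mul_le_mul_of_nonneg_left h2 (by positivity)
          _ = _ := by ring
      have h2 : Real.exp (c / 2 * x) ≤
          Real.exp (c * x - 2 * (η d * L)) / (2 + |t d|) ^ B / L ^ (A + M) := by
        rw [le_div_iff₀ (by positivity), le_div_iff₀ (by positivity)]
        have h3 : L ^ (A + M) = Real.exp ((A + M : ℕ) * Real.log L) := by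
          rw [Real.exp_nat_mul, Real.exp_log hl0]
        have h4 : (2 + |t d|) ^ B = Real.exp (B * l2) := by
          rw [hl2def, Real.exp_nat_mul, Real.exp_log (by linarith)]
        rw [h3, h4, ← Real.exp_add, ← Real.exp_add]
        apply Real.exp_le_exp.2
        have h5 : (A + M + B + 2 : ℕ) * w ≤ c / 2 * x := by
          have h6 : K * w * (c / 2) ≤ x * (c / 2) := mul_le_mul_of_nonneg_right hxw.le (by positivity)
          have h7 : K * w * (c / 2) = (A + M + B + 2 : ℕ) * w := by rw [hK]; field_simp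
          linarith
        have h6 : ((A + M : ℕ) : ℝ) * Real.log L + B * l2 + 2 * (η d * L) ≤
            (A + M + B + 2 : ℕ) * w := by
          rw [hw]
          push_cast
          have a0 : (0 : ℝ) ≤ A := Nat.cast_nonneg A
          have m0 : (0 : ℝ) ≤ M := Nat.cast_nonneg M
          have b0 : (0 : ℝ) ≤ B := Nat.cast_nonneg B
          nlinarith [mul_nonneg a0 hll, mul_nonneg m0 hll, mul_nonneg b0 hll, mul_nonneg a0 hl2,
            mul_nonneg m0 hl2, mul_nonneg b0 hl2, mul_nonneg a0 hηL, mul_nonneg m0 hηL,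
            mul_nonneg b0 hηL]
        linarith
      have h3 := mul_le_mul_of_nonneg_left h2 (show (0 : ℝ) ≤ k.factorial * (2 / c) ^ k by positivity)
      have h4 : (0 : ℝ) ≤ K ^ k := by positivity
      linarith
  refine (Finset.sum_le_sum hpt).trans ?_
  rw [Finset.sum_add_distrib, Finset.sum_const, nsmul_eq_mul, ← Finset.mul_sum, ← Finset.sum_div]
  have h2 : (∑ d ∈ S, Real.exp (c * n d (t d) (η d) - 2 * (η d * L)) / (2 + |t d|) ^ B) /
      L ^ (A + M) ≤ |C| * (X / L ^ M) := by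
    rw [div_le_iff₀ (by positivity)]
    refine h1.trans ?_
    rw [pow_add]
    have e : |C| * (X / L ^ M) * (L ^ A * L ^ M) = |C| * X * L ^ A := by field_simp
    rw [e]
    gcongr
    exact le_abs_self C
  have hXM : 0 ≤ X / L ^ M := by positivity
  calc (S.card : ℝ) * K ^ k + (k.factorial * (2 / c) ^ k) *
        ((∑ d ∈ S, Real.exp (c * n d (t d) (η d) - 2 * (η d * L)) / (2 + |t d|) ^ B) / L ^ (A + M))
      ≤ (S.card : ℝ) * K ^ k + (k.factorial * (2 / c) ^ k) * (|C| * (X / L ^ M)) := by gcongr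
    _ ≤ (K ^ k + (k.factorial * (2 / c) ^ k) * |C|) * (S.card + X / L ^ M) := by
        have g1 : 0 ≤ K ^ k * (X / L ^ M) := by positivity
        have g2 : 0 ≤ (k.factorial * (2 / c) ^ k) * |C| * S.card := by positivity
        linarith

theorem localLaw_of {a b : ℤ} (hab : 4 * a ^ 3 + 27 * b ^ 2 ≠ 0) (h : HasTwists a b)
    (hL : ∀ d : ℤ, Squarefree d → ∃ F : ℂ → ℂ, IsLFun (a * d ^ 2) (b * d ^ 3) F) :
    LocalLaw a b := by
  obtain ⟨Q, lam, ⟨T⟩, hQ, hlam⟩ := h
  refine ⟨fun d hd => ?_, fun F hF => ?_⟩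
  · obtain ⟨F, hF⟩ := hL d hd
    exact ⟨F, hF, fun G hG => isLFun_unique hG hF⟩
  obtain ⟨C, c, A, B, hC, hc, hmom⟩ := mom_all T
  obtain ⟨D, hD, hfin⟩ := zball_fin T
  have heq : ∀ (d : ℤ) (t η : ℝ), Squarefree d → η ≤ 1 / 400 →
      zball (F d) (1 + t * I) η = zball (T.Lq d) (1 / 2 + t * I) η := fun d t η hd hη =>
    zball_eq a b hab T hQ hlam d hd (F d) (hF d hd) t η (by linarith)
  have heq' : ∀ (d : ℤ) (t η : ℝ), Squarefree d → η ≤ 1 / 400 →
      (zball (F d) (1 + t * I) η).toReal = nz T d t η := fun d t η hd hη => by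
    rw [heq d t η hd hη]; rfl
  have hmoments := moments_of (B := B) (A := A) (C := C) hc (fun d t η => nz T d t η)
    (fun d t η => nz_nonneg T d t η) hmom
  have key : ∀ k M : ℕ, ∃ C : ℝ, 0 < C ∧ ∀ (X : ℕ) (S : Finset ℤ) (t η : ℤ → ℝ), 3 ≤ X →
      S ⊆ sqf X → (∀ d ∈ S, 0 ≤ η d ∧ η d ≤ 1 / 400) →
      ∑ d ∈ S, ((zball (F d) (1 + t d * I) (η d)).toReal /
        (1 + Real.log (Real.log X) + Real.log (2 + |t d|) + η d * Real.log X)) ^ k ≤
        C * (S.card + X / Real.log X ^ M) := by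
    intro k M
    obtain ⟨C', hC', hk⟩ := hmoments k M
    refine ⟨C', hC', fun X S t η hX hS hη => ?_⟩
    refine le_trans (le_of_eq (Finset.sum_congr rfl fun d hd => ?_)) (hk X S t η hX hS hη)
    rw [heq' d (t d) (η d) (mem_sqf.1 (hS hd)).2 (hη d hd).2]
  refine ⟨fun d t η hd hη => ?_, ⟨C, c, A, B, hc, fun X t η hX hη => ?_⟩, fun k M => ?_,
    fun M => ?_⟩
  · rw [heq d t η hd hη]
    have hdX : |(d : ℝ)| ≤ ((d.natAbs + 3 : ℕ) : ℝ) := by
      push_cast
      have : |(d : ℝ)| = (d.natAbs : ℝ) := by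
        rw [← Int.cast_abs, Int.abs_eq_natAbs]; simp
      rw [this]; linarith
    exact ((hfin d (d.natAbs + 3) t η hd (by omega) hdX (by linarith)).trans_lt
      ENNReal.ofReal_lt_top).ne
  · refine le_trans (le_of_eq (Finset.sum_congr rfl fun d hd => ?_)) (hmom X t η hX hη)
    have hX0 : (0 : ℝ) < X := by exact_mod_cast (by omega : 0 < X)
    rw [heq' d (t d) (η d) (mem_sqf.1 hd).2 (hη d hd).2, Real.exp_sub, div_div]
    congr 2
    rw [Real.rpow_def_of_pos hX0]
    congr 1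
    ring
  · obtain ⟨C', -, hk⟩ := key k M
    exact ⟨C', hk⟩
  · obtain ⟨C', hC', hk⟩ := key 1 M
    refine ⟨1, 2 * C', fun X S hX hS hbig => ?_⟩
    have hl := one_le_log hX
    have hX0 : (0 : ℝ) < X := by exact_mod_cast (by omega : 0 < X)
    set L := Real.log X with hLdef
    have hL0 : 0 < L := by linarith
    have hll : 0 ≤ Real.log L := Real.log_nonneg hl
    choose! t η h0 h1 h2 using hbig
    have h3 := hk X S t η hX hS (fun d hd => ⟨h0 d hd, h1 d hd⟩)
    have h4 : (S.card : ℝ) * (2 * C') ≤ ∑ d ∈ S, ((zball (F d) (1 + t d * I) (η d)).toReal /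
        (1 + Real.log L + Real.log (2 + |t d|) + η d * L)) ^ 1 := by
      rw [← nsmul_eq_mul, ← Finset.sum_const]
      refine Finset.sum_le_sum fun d hd => ?_
      have ht0 := abs_nonneg (t d)
      have hl2 : 0 ≤ Real.log (2 + |t d|) := Real.log_nonneg (by linarith)
      have hηL : 0 ≤ η d * L := mul_nonneg (h0 d hd) hL0.le
      rw [pow_one, le_div_iff₀ (by linarith)]
      exact (h2 d hd).le
    have h5 := h4.trans h3
    have h6 : C' * (S.card : ℝ) ≤ C' * (X / L ^ M) := by linarith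
    have h7 := le_of_mul_le_mul_left h6 hC'
    rwa [one_mul]

end Pool.Agent.U693.QT
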