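import Pool.Agent.Y19.QT.Sec
import Pool.Agent.Y703.QT12.Mom
import Pool.Agent.U693.QT.Eq

set_option autoImplicit false

/-! The second moment of `ell d` near the critical line, polynomial in the height. -/

namespace Pool.Agent.U693.QT

open Complex MeasureTheory Filter Topology Set
open Pool.Agent.Y19.QT Pool.Agent.Y703.QT8 Pool.Agent.Y703.QT12 Pool.Agent.Y180.QT12d1
open Pool.Agent.H306R2.RZ (js Gk)
open scoped ENNReal ComplexConjugate

variable {Q : ℕ} {lam : ℕ → ℝ}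

theorem two_le_log {X : ℕ} (hX : 8 ≤ X) : 2 ≤ Real.log X := by
  have h1 : Real.log 8 ≤ Real.log X := Real.log_le_log (by norm_num) (by exact_mod_cast hX)
  have h2 : Real.log 8 = 3 * Real.log 2 := by
    rw [show (8 : ℝ) = 2 ^ 3 by norm_num, Real.log_pow]
    push_cast
    ring
  have := Real.log_two_gt_d9
  linarith

/-- the second moment on vertical lines, with an arbitrary angle -/
theorem mean_ang (T : Twists Q lam) : ∃ (C : ℝ) (A B : ℕ), 0 < C ∧
    ∀ (X : ℕ) (σ ζ : ℝ), 8 ≤ X → |σ - 1 / 2| ≤ 1 / Real.log X → 0 < ζ → ζ ≤ 1 / 16 →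
      ∑ d ∈ sqf X, ∫⁻ y : ℝ, ‖T.ell d (σ + y * I)‖ₑ ^ 2 *
          ENNReal.ofReal (Real.exp (-(2 * ζ * |y|))) ≤
        ENNReal.ofReal (C * (ζ⁻¹) ^ B * X * Real.log X ^ A) := by
  obtain ⟨C8, hC8, h8⟩ := Pool.Agent.Y46.QTH8.H8b T
  obtain ⟨C11, A, B, hC11, h11⟩ := H11 T
  refine ⟨C8 * Real.exp 4 * C11, A, B, by positivity, fun X σ ζ hX hσ hζ hζ1 => ?_⟩
  have hpi := Real.pi_gt_three
  have hX0 : (0 : ℝ) < X := by exact_mod_cast (by omega : 0 < X)
  have hX1 : (1 : ℝ) ≤ X := by exact_mod_cast (by omega : 1 ≤ X)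
  have hL := two_le_log hX
  set L := Real.log X with hLdef
  have hL0 : 0 < L := by linarith
  have hinv : 1 / L ≤ 1 / 2 := one_div_le_one_div_of_le (by norm_num) hL
  have hinv0 : 0 < 1 / L := by positivity
  obtain ⟨k1, k2⟩ := abs_le.1 hσ
  set θ : ℝ := Real.pi / 2 - ζ with hθ
  set σ' : ℝ := 1 / 2 + 1 / L with hσ'
  have e : Real.pi - 2 * θ = 2 * ζ := by rw [hθ]; ring
  have e2 : Real.pi / 2 - θ = ζ := by rw [hθ]; ring
  have hθ0 : 0 < θ := by rw [hθ]; linarith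
  have hθ1 : θ < Real.pi / 2 := by rw [hθ]; linarith
  have hth : th0 ≤ θ := by
    unfold th0
    rw [hθ]
    linarith
  have hσ'1 : σ' ≤ 1 := by rw [hσ']; linarith
  have h4 : |σ - 1 / 2| ≤ σ' - 1 / 2 := by rw [hσ']; linarith
  calc ∑ d ∈ sqf X, ∫⁻ y : ℝ, ‖T.ell d (σ + y * I)‖ₑ ^ 2 *
          ENNReal.ofReal (Real.exp (-(2 * ζ * |y|)))
      ≤ ∑ d ∈ sqf X, ENNReal.ofReal (C8 * Real.exp 4) * NN σ' θ (T.q d)⁻¹ (T.Gf d) := by
        refine Finset.sum_le_sum fun d hd => ?_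
        have h6 := h8 θ d σ σ' hθ0 hθ1 (sqf_sqf hd) (by linarith) (by linarith) hσ'1 h4
        rw [e] at h6
        refine h6.trans ?_
        have hd1 := one_le_abs (sqf_sqf hd)
        have h7 : |(d : ℝ)| ^ (2 * (σ' - σ)) ≤ Real.exp 4 := by
          have hdX := sqf_abs hd
          calc |(d : ℝ)| ^ (2 * (σ' - σ)) ≤ (X : ℝ) ^ (2 * (σ' - σ)) :=
                Real.rpow_le_rpow (by linarith) hdX (by rw [hσ']; linarith)
            _ ≤ (X : ℝ) ^ (4 / L) :=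
                Real.rpow_le_rpow_of_exponent_le hX1 (by
                  rw [hσ']
                  have : (4 : ℝ) / L = 4 * (1 / L) := by ring
                  rw [this]
                  linarith)
            _ = Real.exp 4 := by
                rw [Real.rpow_def_of_pos hX0, ← hLdef]
                congr 1
                field_simp
        gcongr
    _ = ENNReal.ofReal (C8 * Real.exp 4) * ∑ d ∈ sqf X, NN σ' θ (T.q d)⁻¹ (T.Gf d) := by
        rw [Finset.mul_sum]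
    _ ≤ ENNReal.ofReal (C8 * Real.exp 4) *
          ENNReal.ofReal (C11 * ((Real.pi / 2 - θ)⁻¹) ^ B * X * Real.log X ^ A) := by
        gcongr
        exact h11 X σ' θ (by omega) (by rw [hσ']) hσ'1 hth hθ1
    _ = _ := by
        rw [← ENNReal.ofReal_mul (by positivity), e2]
        congr 1
        ring

/-- a value near the critical line and a mean value -/
theorem point {f : ℂ → ℂ} (hf : Differentiable ℂ f) {x0 t δ ζ : ℝ} {n : ℕ} (hδ : 0 < δ)
    (hδ1 : δ ≤ 1 / 16) (hx0 : |x0| ≤ 8 * δ) (ht : |t| ≤ n) (hζ : 0 < ζ)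
    (hζ1 : ζ * (n + 1) ≤ 1 / 2) :
    ENNReal.ofReal (30 * Real.pi * δ ^ 2) * ‖f (1 / 2 + x0 + t * I)‖ₑ ^ 2 ≤
      ∫⁻ x in Icc (-(16 * δ)) (16 * δ), ENNReal.ofReal (Real.exp 1) *
        ∫⁻ y : ℝ, ‖f ((1 / 2 + x : ℝ) + y * I)‖ₑ ^ 2 *
          ENNReal.ofReal (Real.exp (-(2 * ζ * |y|))) := by
  have hpi := Real.pi_pos
  set g : ℂ → ℂ := fun s => f (s - δ + x0 + t * I) with hg
  have hgd : Differentiable ℂ g := by
    rw [hg]
    exact hf.comp (((differentiable_id.sub_const _).add_const _).add_const _)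
  have h1 := stepB (r := 0) hδ hgd.differentiableOn (M := g) hgd.differentiableOn
    (by simp : ((0 : ℕ) : ℕ∞) ≤ analyticOrderAt g (1 / 2))
  have e1 : g (1 / 2 + δ) = f (1 / 2 + x0 + t * I) := by
    rw [hg]
    dsimp only
    congr 1
    ring
  rw [e1, pow_zero, one_mul, norm_mul] at h1
  have e2 : ENNReal.ofReal (3 * δ * (5 * δ)) * (ENNReal.ofReal (2 * Real.pi) *
      ENNReal.ofReal (‖f (1 / 2 + x0 + t * I)‖ * ‖f (1 / 2 + x0 + t * I)‖)) =
      ENNReal.ofReal (30 * Real.pi * δ ^ 2) * ‖f (1 / 2 + x0 + t * I)‖ₑ ^ 2 := by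
    rw [ENNReal.ofReal_mul (norm_nonneg _), ofReal_norm, ← pow_two, ← mul_assoc,
      ← ENNReal.ofReal_mul (by positivity)]
    congr 2
    ring
  rw [e2] at h1
  refine h1.trans ?_
  have hvol : ∫⁻ p in Sq δ, ‖g (pt δ p)‖ₑ * ‖g (pt δ p)‖ₑ ≤
      ∫⁻ x in Icc (-(8 * δ)) (8 * δ), ∫⁻ y in Icc (-(8 * δ)) (8 * δ),
        ‖g (pt δ (x, y))‖ₑ * ‖g (pt δ (x, y))‖ₑ := by
    unfold Sq
    rw [Measure.volume_eq_prod, ← Measure.prod_restrict]
    exact lintegral_prod_le _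
  refine hvol.trans ?_
  set J : ℝ → ℝ≥0∞ := fun x => ENNReal.ofReal (Real.exp 1) *
        ∫⁻ y : ℝ, ‖f ((1 / 2 + x : ℝ) + y * I)‖ₑ ^ 2 *
          ENNReal.ofReal (Real.exp (-(2 * ζ * |y|))) with hJ
  have hin : ∀ x : ℝ, ∫⁻ y in Icc (-(8 * δ)) (8 * δ),
        ‖g (pt δ (x, y))‖ₑ * ‖g (pt δ (x, y))‖ₑ ≤ J (x + x0) := by
    intro x
    have hpt : ∀ y : ℝ, g (pt δ (x, y)) = f ((1 / 2 + (x + x0) : ℝ) + ((y + t : ℝ) : ℂ) * I) := by
      intro y
      rw [hg]
      dsimp only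
      congr 1
      unfold pt
      push_cast
      ring
    have h2 : ∫⁻ y in Icc (-(8 * δ)) (8 * δ), ‖g (pt δ (x, y))‖ₑ * ‖g (pt δ (x, y))‖ₑ ≤
        ∫⁻ y in Icc (-(8 * δ)) (8 * δ), ENNReal.ofReal (Real.exp 1) *
          (‖f ((1 / 2 + (x + x0) : ℝ) + ((y + t : ℝ) : ℂ) * I)‖ₑ ^ 2 *
            ENNReal.ofReal (Real.exp (-(2 * ζ * |y + t|)))) := by
      refine setLIntegral_mono_ae' measurableSet_Icc (Filter.Eventually.of_forall fun y hy => ?_)
      rw [hpt, ← pow_two]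
      have h3 : (1 : ℝ) ≤ Real.exp 1 * Real.exp (-(2 * ζ * |y + t|)) := by
        rw [← Real.exp_add, Real.one_le_exp_iff]
        have h4 : |y + t| ≤ n + 1 := by
          have h5 : |y| ≤ 8 * δ := abs_le.2 hy
          have h6 := abs_add_le y t
          linarith
        have h7 : ζ * |y + t| ≤ ζ * (n + 1) := mul_le_mul_of_nonneg_left h4 hζ.le
        linarith
      have h5 : (1 : ℝ≥0∞) ≤ ENNReal.ofReal (Real.exp 1) *
          ENNReal.ofReal (Real.exp (-(2 * ζ * |y + t|))) := by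
        rw [← ENNReal.ofReal_mul (Real.exp_pos _).le, ← ENNReal.ofReal_one]
        exact ENNReal.ofReal_le_ofReal h3
      calc ‖f ((1 / 2 + (x + x0) : ℝ) + ((y + t : ℝ) : ℂ) * I)‖ₑ ^ 2
          = ‖f ((1 / 2 + (x + x0) : ℝ) + ((y + t : ℝ) : ℂ) * I)‖ₑ ^ 2 * 1 := by rw [mul_one]
        _ ≤ ‖f ((1 / 2 + (x + x0) : ℝ) + ((y + t : ℝ) : ℂ) * I)‖ₑ ^ 2 *
            (ENNReal.ofReal (Real.exp 1) *
          ENNReal.ofReal (Real.exp (-(2 * ζ * |y + t|)))) := by gcongr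
        _ = _ := by ring
    refine h2.trans ?_
    refine (setLIntegral_le_lintegral _ _).trans ?_
    rw [lintegral_const_mul' _ _ ENNReal.ofReal_ne_top, hJ]
    refine mul_le_mul' le_rfl ?_
    exact (lintegral_add_right_eq_self (μ := volume)
      (fun y : ℝ => ‖f ((1 / 2 + (x + x0) : ℝ) + (y : ℂ) * I)‖ₑ ^ 2 *
        ENNReal.ofReal (Real.exp (-(2 * ζ * |y|)))) t).le
  refine (lintegral_mono hin).trans ?_
  rw [← lintegral_indicator measurableSet_Icc, ← lintegral_indicator measurableSet_Icc]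
  have h8 : ∀ x : ℝ, (Icc (-(8 * δ)) (8 * δ)).indicator (fun x => J (x + x0)) x ≤
      (Icc (-(16 * δ)) (16 * δ)).indicator J (x + x0) := by
    intro x
    by_cases hx : x ∈ Icc (-(8 * δ)) (8 * δ)
    · obtain ⟨k1, k2⟩ := abs_le.1 hx0
      have hx' : x + x0 ∈ Icc (-(16 * δ)) (16 * δ) := ⟨by linarith [hx.1], by linarith [hx.2]⟩
      rw [indicator_of_mem hx, indicator_of_mem hx']
    · rw [indicator_of_notMem hx]
      exact zero_le
  refine (lintegral_mono h8).trans ?_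
  exact (lintegral_add_right_eq_self (μ := volume)
    (fun x : ℝ => (Icc (-(16 * δ)) (16 * δ)).indicator J x) x0).le

/-- sums over `d` of values at bounded height -/
theorem sum_point (T : Twists Q lam) : ∃ (C : ℝ) (A B : ℕ), 0 < C ∧
    ∀ (X n : ℕ) (z : ℤ → ℂ) (D : Finset ℤ), 8 ≤ X → D ⊆ sqf X →
      (∀ d ∈ D, |(z d).re - 1 / 2| ≤ 1 / (2 * Real.log X) ∧ |(z d).im| ≤ n) →
      ∑ d ∈ D, ‖T.ell d (z d)‖ ^ 2 ≤ C * ((n : ℝ) + 1) ^ B * X * Real.log X ^ A := by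
  obtain ⟨C, A, B, hC, h⟩ := mean_ang T
  refine ⟨512 * Real.exp 1 * C * 16 ^ B, A + 1, B, by positivity, fun X n z D hX hD ht => ?_⟩
  have hpi := Real.pi_gt_three
  have hX0 : (0 : ℝ) < X := by exact_mod_cast (by omega : 0 < X)
  have hL := two_le_log hX
  set L := Real.log X with hLdef
  have hL0 : 0 < L := by linarith
  set δ : ℝ := 1 / (16 * L) with hδ
  have hδ0 : 0 < δ := by positivity
  have hδ1 : δ ≤ 1 / 16 := by
    rw [hδ]
    exact one_div_le_one_div_of_le (by norm_num) (by linarith)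
  have hδ16 : 16 * δ = 1 / L := by rw [hδ]; field_simp
  have hδ8 : 8 * δ = 1 / (2 * L) := by rw [hδ]; field_simp; norm_num
  set ζ : ℝ := 1 / (16 * (n + 1)) with hζ
  have hn0 : (0 : ℝ) ≤ n := Nat.cast_nonneg n
  have hζ0 : 0 < ζ := by positivity
  have hζ1 : ζ ≤ 1 / 16 := by
    rw [hζ]
    exact one_div_le_one_div_of_le (by norm_num) (by linarith)
  have hζ2 : ζ * (n + 1) ≤ 1 / 2 := by
    have : ζ * (n + 1) = 1 / 16 := by rw [hζ]; field_simp
    rw [this]; norm_num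
  have hζi : ζ⁻¹ = 16 * (n + 1) := by rw [hζ]; field_simp
  have hell : ∀ d ∈ D, Differentiable ℂ (T.ell d) := fun d hd => ell_diff T (sqf_sqf (hD hd))
  have hz : ∀ d : ℤ, z d = 1 / 2 + (((z d).re - 1 / 2 : ℝ) : ℂ) + ((z d).im : ℂ) * I := by
    intro d
    apply Complex.ext
    · simp
    · simp
  have hsum : ENNReal.ofReal (30 * Real.pi * δ ^ 2 * ∑ d ∈ D, ‖T.ell d (z d)‖ ^ 2) ≤
      ENNReal.ofReal (Real.exp 1 * (C * (ζ⁻¹) ^ B * X * L ^ A) * (32 * δ)) := by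
    rw [ENNReal.ofReal_mul (by positivity), ENNReal.ofReal_sum_of_nonneg (fun d _ => by positivity),
      Finset.mul_sum]
    calc ∑ d ∈ D, ENNReal.ofReal (30 * Real.pi * δ ^ 2) *
          ENNReal.ofReal (‖T.ell d (z d)‖ ^ 2)
        ≤ ∑ d ∈ D, ∫⁻ x in Icc (-(16 * δ)) (16 * δ), ENNReal.ofReal (Real.exp 1) *
            ∫⁻ y : ℝ, ‖T.ell d ((1 / 2 + x : ℝ) + y * I)‖ₑ ^ 2 *
              ENNReal.ofReal (Real.exp (-(2 * ζ * |y|))) := by
          refine Finset.sum_le_sum fun d hd => ?_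
          have h1 := point (hell d hd) hδ0 hδ1 (by rw [hδ8]; exact (ht d hd).1) (ht d hd).2 hζ0 hζ2
          rw [← hz d] at h1
          rwa [ENNReal.ofReal_pow (norm_nonneg _), ofReal_norm]
      _ ≤ ∫⁻ x in Icc (-(16 * δ)) (16 * δ), ∑ d ∈ D, ENNReal.ofReal (Real.exp 1) *
            ∫⁻ y : ℝ, ‖T.ell d ((1 / 2 + x : ℝ) + y * I)‖ₑ ^ 2 *
              ENNReal.ofReal (Real.exp (-(2 * ζ * |y|))) := sum_lintegral_le _ _ _
      _ ≤ ∫⁻ x in Icc (-(16 * δ)) (16 * δ), ENNReal.ofReal (Real.exp 1) *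
            ENNReal.ofReal (C * (ζ⁻¹) ^ B * X * L ^ A) := by
          refine setLIntegral_mono_ae' measurableSet_Icc (Filter.Eventually.of_forall fun x hx => ?_)
          rw [← Finset.mul_sum]
          gcongr
          refine (Finset.sum_le_sum_of_subset hD).trans ?_
          have h2 : |(1 / 2 + x) - 1 / 2| ≤ 1 / Real.log X := by
            rw [← hLdef, ← hδ16, abs_le]
            constructor <;> linarith [hx.1, hx.2]
          exact h X (1 / 2 + x) ζ hX h2 hζ0 hζ1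
      _ = ENNReal.ofReal (Real.exp 1) * ENNReal.ofReal (C * (ζ⁻¹) ^ B * X * L ^ A) *
            ENNReal.ofReal (16 * δ - (-(16 * δ))) := by
          rw [lintegral_const, Measure.restrict_apply_univ, Real.volume_Icc]
      _ = _ := by
          rw [← ENNReal.ofReal_mul (by positivity), ← ENNReal.ofReal_mul (by positivity)]
          congr 1
          ring
  have hreal := (ENNReal.ofReal_le_ofReal_iff (by positivity)).1 hsum
  set V := ∑ d ∈ D, ‖T.ell d (z d)‖ ^ 2 with hV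
  have hV0 : 0 ≤ V := Finset.sum_nonneg fun d _ => by positivity
  rw [hζi] at hreal
  have h3 : δ * V ≤ Real.exp 1 * (C * (16 * (n + 1)) ^ B * X * L ^ A) * 32 := by
    have h4 : δ * (30 * Real.pi * (δ * V)) ≤
        δ * (Real.exp 1 * (C * (16 * (n + 1)) ^ B * X * L ^ A) * 32) := by
      calc _ = 30 * Real.pi * δ ^ 2 * V := by ring
        _ ≤ _ := hreal
        _ = _ := by ring
    have h5 := le_of_mul_le_mul_left h4 hδ0
    have h6 : 0 ≤ δ * V := by positivity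
    nlinarith
  have h7 : V = 16 * L * (δ * V) := by rw [hδ]; field_simp
  rw [h7]
  calc 16 * L * (δ * V) ≤ 16 * L * (Real.exp 1 * (C * (16 * (n + 1)) ^ B * X * L ^ A) * 32) := by
        gcongr
    _ = 512 * Real.exp 1 * C * 16 ^ B * ((n : ℝ) + 1) ^ B * X * L ^ (A + 1) := by
        rw [mul_pow, pow_succ]
        ring

end Pool.Agent.U693.QT
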