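import Pool.Agent.U693.QT.Loc

set_option autoImplicit false

/-! Exponential moments with arbitrary centres and radii. -/

namespace Pool.Agent.U693.QT

open Complex MeasureTheory Filter Topology Set
open Pool.Agent.Y19.QT Pool.Agent.Y703.QT8 Pool.Agent.Y703.QT12
open scoped ENNReal ComplexConjugate

variable {Q : ℕ} {lam : ℕ → ℝ} (T : Twists Q lam)

/-- the weights of the net -/
noncomputable def wt (p : ℤ × ℕ) : ℝ := 1 / (1 + |(p.1 : ℝ)|) ^ 2 * Real.exp (-(p.2 : ℝ))

theorem wt_nonneg (p : ℤ × ℕ) : 0 ≤ wt p := by unfold wt; positivity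

theorem wt_sum : Summable wt := by
  have h1 : Summable fun m : ℤ => 1 / (1 + |(m : ℝ)|) ^ 2 := by
    have h0 : Summable fun m : ℤ => (2 : ℝ) / ((|(m : ℝ)|) ^ 2 + 1) := by
      have h2 : Summable fun m : ℤ => 1 / ((m : ℝ)) ^ 2 := by
        have := (Real.summable_one_div_int_pow (p := 2)).2 (by norm_num)
        exact this
      have h3 : Summable fun m : ℤ => (2 : ℝ) * (1 / ((m : ℝ)) ^ 2) + if m = 0 then 2 else 0 :=
        (h2.mul_left 2).add (hasSum_ite_eq 0 (2 : ℝ)).summable
      refine Summable.of_nonneg_of_le (fun m => by positivity) (fun m => ?_) h3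
      by_cases hm : m = 0
      · subst hm; simp
      · rw [if_neg hm, add_zero, sq_abs]
        have hm2 : (0 : ℝ) < (m : ℝ) ^ 2 := by positivity
        rw [mul_one_div, div_le_div_iff₀ (by positivity) hm2]
        linarith
    refine Summable.of_nonneg_of_le (fun m => by positivity) (fun m => ?_) h0
    rw [div_le_div_iff₀ (by positivity) (by positivity)]
    nlinarith [abs_nonneg (m : ℝ), sq_nonneg (|(m : ℝ)|)]
  have h2 : Summable fun j : ℕ => Real.exp (-(j : ℝ)) := by
    have h3 := summable_geometric_of_lt_one (r := Real.exp (-1)) (Real.exp_pos _).le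
      (by rw [Real.exp_lt_one_iff]; norm_num)
    refine h3.congr fun j => ?_
    rw [← Real.exp_nat_mul]
    congr 1
    ring
  exact h1.mul_of_nonneg h2 (fun m => by positivity) (fun j => by positivity)

theorem nz_mono {X : ℕ} {d : ℤ} (hX : 3 ≤ X) (hd : d ∈ sqf X) {t t' η η' : ℝ} (hη' : η' ≤ 1 / 8)
    (h : |t - t'| + η ≤ η') : nz T d t η ≤ nz T d t' η' := by
  obtain ⟨D, hD, hf⟩ := zball_fin T
  have hfin : zball (T.Lq d) (1 / 2 + t' * I) η' ≠ ⊤ :=
    ((hf d X t' η' (sqf_sqf hd) hX (sqf_abs hd) hη').trans_lt ENNReal.ofReal_lt_top).ne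
  unfold nz
  refine ENNReal.toReal_mono hfin (zball_mono _ ?_)
  have e : (1 / 2 + (t : ℂ) * I) - (1 / 2 + t' * I) = ((t - t' : ℝ) : ℂ) * I := by
    push_cast; ring
  rw [e, norm_mul, Complex.norm_I, mul_one, Complex.norm_real, Real.norm_eq_abs]
  exact h

theorem nz_le : ∃ D : ℝ, 1 ≤ D ∧ ∀ (d : ℤ) (X : ℕ) (t η : ℝ), 3 ≤ X → d ∈ sqf X → η ≤ 1 / 8 →
    nz T d t η ≤ D * (Real.log X + Real.log (2 + |t|)) := by
  obtain ⟨D, hD, h⟩ := zball_fin T
  refine ⟨D, hD, fun d X t η hX hd hη => ?_⟩
  have h1 := h d X t η (sqf_sqf hd) hX (sqf_abs hd) hη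
  have h2 := ENNReal.toReal_mono ENNReal.ofReal_ne_top h1
  have hL := log_ge_one hX
  have hl2 : 0 ≤ Real.log (2 + |t|) := Real.log_nonneg (by have := abs_nonneg t; linarith)
  rwa [ENNReal.toReal_ofReal (by positivity)] at h2

set_option maxHeartbeats 4000000 in
/-- the exponential moment with arbitrary centres and radii -/
theorem mom_all : ∃ (C c : ℝ) (A B : ℕ), 0 < C ∧ 0 < c ∧ ∀ (X : ℕ) (t η : ℤ → ℝ), 3 ≤ X →
    (∀ d ∈ sqf X, 0 ≤ η d ∧ η d ≤ 1 / 400) →
    ∑ d ∈ sqf X, Real.exp (c * nz T d (t d) (η d) - 2 * (η d * Real.log X)) / (2 + |t d|) ^ B ≤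
      C * X * Real.log X ^ A := by
  classical
  obtain ⟨C, c, A, B, hC, hc, hc1, h⟩ := mom_fix T
  obtain ⟨D, hD, hnz⟩ := nz_le T
  set B' : ℕ := B + 2 + ⌈c * D⌉₊ with hB'
  set Zs : ℝ := ∑' p, wt p with hZs
  have hZs : 0 ≤ Zs := tsum_nonneg wt_nonneg
  refine ⟨C * Real.exp 3 * 2 ^ B' * (Zs + 1) + 3 * Real.exp (800 * (c * D)), c, A + 2, B',
    by positivity, hc, fun X t η hX hη => ?_⟩
  have hX0 : (0 : ℝ) < X := by exact_mod_cast (by omega : 0 < X)
  have hL1 := log_ge_one hX
  set L := Real.log X with hLdef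
  have hL0 : 0 < L := by linarith
  have hLA : 1 ≤ L ^ (A + 2) := one_le_pow₀ hL1
  rcases lt_or_ge L 800 with hL8 | hL8
  · -- small X
    have hpt : ∀ d ∈ sqf X,
        Real.exp (c * nz T d (t d) (η d) - 2 * (η d * L)) / (2 + |t d|) ^ B' ≤
          Real.exp (800 * (c * D)) := by
      intro d hd
      obtain ⟨e0, e1⟩ := hη d hd
      have ht0 := abs_nonneg (t d)
      have h2t : (1 : ℝ) ≤ 2 + |t d| := by linarith
      have hl2 : 0 ≤ Real.log (2 + |t d|) := Real.log_nonneg h2t
      have h1 := hnz d X (t d) (η d) hX hd (by linarith)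
      rw [div_le_iff₀ (by positivity)]
      have h2 : (2 + |t d|) ^ B' = Real.exp (B' * Real.log (2 + |t d|)) := by
        rw [Real.exp_nat_mul, Real.exp_log (by linarith)]
      rw [h2, ← Real.exp_add]
      apply Real.exp_le_exp.2
      have h3 : c * D ≤ B' := by
        have := Nat.le_ceil (c * D)
        rw [hB']
        push_cast
        have : (0 : ℝ) ≤ B := Nat.cast_nonneg B
        linarith
      have h4 : c * nz T d (t d) (η d) ≤ c * (D * (L + Real.log (2 + |t d|))) := by gcongr
      have h5 : 0 ≤ η d * L := by positivity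
      have h6 : c * D * Real.log (2 + |t d|) ≤ B' * Real.log (2 + |t d|) := by gcongr
      have h7 : c * D * L ≤ c * D * 800 := by gcongr
      nlinarith
    refine (Finset.sum_le_sum hpt).trans ?_
    rw [Finset.sum_const, nsmul_eq_mul]
    have hcard := card_sqf (X := X) (by omega)
    calc ((sqf X).card : ℝ) * Real.exp (800 * (c * D))
        ≤ 3 * X * Real.exp (800 * (c * D)) := by gcongr
      _ = 3 * Real.exp (800 * (c * D)) * X * 1 := by ring
      _ ≤ (C * Real.exp 3 * 2 ^ B' * (Zs + 1) + 3 * Real.exp (800 * (c * D))) * X *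
          L ^ (A + 2) := by
          gcongr
          have : 0 ≤ C * Real.exp 3 * 2 ^ B' * (Zs + 1) := by positivity
          linarith
  · -- large X
    set g : ℤ → ℤ × ℕ := fun d => (⌊t d * L⌋, ⌈η d * L⌉₊) with hg
    set F : ℤ → ℝ := fun d =>
      Real.exp (c * nz T d (t d) (η d) - 2 * (η d * L)) / (2 + |t d|) ^ B' with hF
    have hfib := Finset.sum_fiberwise_of_maps_to (s := sqf X) (t := (sqf X).image g) (g := g)
      (fun d hd => Finset.mem_image_of_mem g hd) F
    have hgoal : ∑ d ∈ sqf X, F d ≤ (C * Real.exp 3 * 2 ^ B' * (Zs + 1)) * X * L ^ (A + 2) := by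
      rw [← hfib]
      have hin : ∀ p ∈ (sqf X).image g, ∑ d ∈ (sqf X).filter (fun d => g d = p), F d ≤
          C * Real.exp 3 * 2 ^ B' * X * L ^ (A + 2) * wt p := by
        rintro ⟨m, j⟩ hp
        obtain ⟨d0, hd0, hgd0⟩ := Finset.mem_image.1 hp
        have hj0 : ⌈η d0 * L⌉₊ = j := by
          have := congrArg Prod.snd hgd0
          simpa [hg] using this
        have hη0 := hη d0 hd0
        have hηL0 : 0 ≤ η d0 * L := mul_nonneg hη0.1 hL0.le
        have hj1 : (j : ℝ) < η d0 * L + 1 := by
          rw [← hj0]; exact Nat.ceil_lt_add_one hηL0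
        have hr : ((j : ℝ) + 1) / L ≤ 1 / 200 := by
          rw [div_le_iff₀ hL0]
          have : η d0 * L ≤ 1 / 400 * L := by gcongr; exact hη0.2
          linarith
        have hr0 : 0 ≤ ((j : ℝ) + 1) / L := by positivity
        have hpt : ∀ d ∈ (sqf X).filter (fun d => g d = (m, j)), F d ≤
            Real.exp (c * nz T d (m / L) (((j : ℝ) + 1) / L)) *
              (Real.exp (2 - 2 * j) * 2 ^ B' / (2 + |(m : ℝ)| / L) ^ B') := by
          intro d hd
          obtain ⟨hd1, hd2⟩ := Finset.mem_filter.1 hd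
          have hm : ⌊t d * L⌋ = m := by
            have := congrArg Prod.fst hd2
            simpa [hg] using this
          have hj : ⌈η d * L⌉₊ = j := by
            have := congrArg Prod.snd hd2
            simpa [hg] using this
          have hηd := hη d hd1
          have hηL : 0 ≤ η d * L := mul_nonneg hηd.1 hL0.le
          have hj2 : (j : ℝ) < η d * L + 1 := by rw [← hj]; exact Nat.ceil_lt_add_one hηL
          have hj3 : η d * L ≤ j := by rw [← hj]; exact Nat.le_ceil _
          have hm1 : (m : ℝ) ≤ t d * L := by rw [← hm]; exact Int.floor_le _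
          have hm2 : t d * L < m + 1 := by rw [← hm]; exact Int.lt_floor_add_one _
          have hdist : |t d - m / L| ≤ 1 / L := by
            have e : t d - m / L = (t d * L - m) / L := by field_simp
            rw [e, abs_div, abs_of_pos hL0]
            gcongr
            rw [abs_le]; constructor <;> linarith
          have hηle : η d ≤ j / L := by rw [le_div_iff₀ hL0]; exact hj3
          have hmono : nz T d (t d) (η d) ≤ nz T d (m / L) (((j : ℝ) + 1) / L) := by
            refine nz_mono T hX hd1 (by linarith) ?_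
            have e : ((j : ℝ) + 1) / L = 1 / L + j / L := by ring
            rw [e]
            linarith
          have h1L : 1 / L ≤ 1 := by rw [div_le_one hL0]; linarith
          have hmt : 2 + |(m : ℝ)| / L ≤ 2 * (2 + |t d|) := by
            have e : |(m : ℝ)| / L = |(m : ℝ) / L| := by rw [abs_div, abs_of_pos hL0]
            rw [e]
            have e2 : |(m : ℝ) / L| ≤ |t d| + |t d - m / L| := by
              have := abs_sub (t d) (t d - m / L)
              have e3 : t d - (t d - m / L) = m / L := by ring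
              rw [e3] at this
              exact this
            have := abs_nonneg (t d)
            linarith
          have hden : 1 / (2 + |t d|) ^ B' ≤ 2 ^ B' / (2 + |(m : ℝ)| / L) ^ B' := by
            rw [div_le_div_iff₀ (by positivity) (by positivity), one_mul, ← mul_pow]
            exact pow_le_pow_left₀ (by positivity) hmt B'
          have hexp : Real.exp (c * nz T d (t d) (η d) - 2 * (η d * L)) ≤
              Real.exp (c * nz T d (m / L) (((j : ℝ) + 1) / L)) * Real.exp (2 - 2 * j) := by
            rw [← Real.exp_add]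
            apply Real.exp_le_exp.2
            have : c * nz T d (t d) (η d) ≤ c * nz T d (m / L) (((j : ℝ) + 1) / L) := by gcongr
            linarith
          calc F d = Real.exp (c * nz T d (t d) (η d) - 2 * (η d * L)) *
                (1 / (2 + |t d|) ^ B') := by rw [hF]; ring
            _ ≤ (Real.exp (c * nz T d (m / L) (((j : ℝ) + 1) / L)) * Real.exp (2 - 2 * j)) *
                (2 ^ B' / (2 + |(m : ℝ)| / L) ^ B') := by gcongr
            _ = _ := by ring
        refine (Finset.sum_le_sum hpt).trans ?_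
        rw [← Finset.sum_mul]
        have h1 : ∑ d ∈ (sqf X).filter (fun d => g d = (m, j)),
            Real.exp (c * nz T d (m / L) (((j : ℝ) + 1) / L)) ≤
            C * Real.exp (j + 1) * (1 + |(m : ℝ)| / L) ^ B * X * L ^ A := by
          refine (Finset.sum_le_sum_of_subset_of_nonneg (Finset.filter_subset _ _)
            (fun _ _ _ => (Real.exp_pos _).le)).trans ?_
          have h2 := h X (m / L) (((j : ℝ) + 1) / L) hX hr0 hr
          have e1 : ((j : ℝ) + 1) / L * L = j + 1 := by field_simp
          have e2 : |(m : ℝ) / L| = |(m : ℝ)| / L := by rw [abs_div, abs_of_pos hL0]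
          rw [← hLdef, e1, e2] at h2
          exact h2
        set u : ℝ := |(m : ℝ)| / L with hu
        have hu0 : 0 ≤ u := by positivity
        have hfr : (1 + u) ^ B / (2 + u) ^ B' ≤ L ^ 2 * (1 / (1 + |(m : ℝ)|) ^ 2) := by
          have g1 : (1 + u) ^ B / (2 + u) ^ B' ≤ 1 / (1 + u) ^ 2 := by
            rw [div_le_div_iff₀ (by positivity) (by positivity), one_mul, ← pow_add]
            calc (1 + u) ^ (B + 2) ≤ (2 + u) ^ (B + 2) := by gcongr; norm_num
              _ ≤ (2 + u) ^ B' := pow_le_pow_right₀ (by linarith) (by omega)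
          refine g1.trans ?_
          rw [mul_one_div, div_le_div_iff₀ (by positivity) (by positivity), one_mul, ← mul_pow]
          refine pow_le_pow_left₀ (by positivity) ?_ 2
          have : L * (1 + u) = L + |(m : ℝ)| := by rw [hu]; field_simp
          rw [this]
          linarith
        calc (∑ d ∈ (sqf X).filter (fun d => g d = (m, j)),
              Real.exp (c * nz T d (m / L) (((j : ℝ) + 1) / L))) *
              (Real.exp (2 - 2 * j) * 2 ^ B' / (2 + u) ^ B')
            ≤ (C * Real.exp (j + 1) * (1 + u) ^ B * X * L ^ A) *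
              (Real.exp (2 - 2 * j) * 2 ^ B' / (2 + u) ^ B') := by gcongr
          _ = C * (Real.exp (j + 1) * Real.exp (2 - 2 * j)) * 2 ^ B' * X * L ^ A *
              ((1 + u) ^ B / (2 + u) ^ B') := by ring
          _ = C * (Real.exp 3 * Real.exp (-(j : ℝ))) * 2 ^ B' * X * L ^ A *
              ((1 + u) ^ B / (2 + u) ^ B') := by
              rw [← Real.exp_add, ← Real.exp_add]
              congr 6
              ring
          _ ≤ C * (Real.exp 3 * Real.exp (-(j : ℝ))) * 2 ^ B' * X * L ^ A *
              (L ^ 2 * (1 / (1 + |(m : ℝ)|) ^ 2)) := by gcongr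
          _ = _ := by unfold wt; rw [pow_add]; ring
      refine (Finset.sum_le_sum hin).trans ?_
      rw [← Finset.mul_sum]
      have h5 : ∑ p ∈ (sqf X).image g, wt p ≤ Zs + 1 := by
        have := wt_sum.sum_le_tsum ((sqf X).image g) (fun p _ => wt_nonneg p)
        linarith
      calc C * Real.exp 3 * 2 ^ B' * X * L ^ (A + 2) * ∑ p ∈ (sqf X).image g, wt p
          ≤ C * Real.exp 3 * 2 ^ B' * X * L ^ (A + 2) * (Zs + 1) := by gcongr
        _ = _ := by ring
    refine hgoal.trans ?_
    have : 0 ≤ 3 * Real.exp (800 * (c * D)) := by positivity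
    gcongr
    linarith

end Pool.Agent.U693.QT
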