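import Pool.Agent.Y641.QTHZ3
import Pool.Agent.Y369.QTZ1
import Pool.Agent.Y203.QTZ2
import Pool.Agent.Y19.QT.ZD
import Pool.Agent.Y703.QT12.Main
import Pool.Agent.U693.QT.Disc

set_option autoImplicit false

/-! Mean values at an arbitrary height. -/

namespace Pool.Agent.U693.QT

open Complex MeasureTheory Filter Topology Set
open Pool.Agent.Y19.QT Pool.Agent.Y703.QT8 Pool.Agent.Y703.QT12
open Pool.Agent.Y641.QTHZ3 (thT thT_ge thT_lt thT_inv weight)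
open Pool.Agent.Y180.QT12b2 (Ep cx Ep_bound Ep_diff Lq_eq lj_le)
open Pool.Agent.Y180.QT12d1 (Sq pt measurableSet_Sq continuous_pt)
open Pool.Agent.H306R2.RZ (js Gk)
open scoped ENNReal ComplexConjugate

variable {Q : ℕ} {lam : ℕ → ℝ} (T : Twists Q lam)

/-- the second moment on vertical lines, at an arbitrary height -/
theorem mean_ellH : ∃ (C : ℝ) (A B : ℕ), 0 < C ∧ ∀ (X : ℕ) (σ σ' t : ℝ), 3 ≤ X → 0 ≤ σ → σ ≤ 1 →
    σ' ≤ 1 → 1 / 2 + 1 / Real.log X ≤ σ' → |σ - 1 / 2| ≤ σ' - 1 / 2 →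
    ∑ d ∈ sqf X, ∫⁻ y : ℝ, ‖T.ell d (σ + ((y + t : ℝ) : ℂ) * I)‖ₑ ^ 2 *
        ENNReal.ofReal (Real.exp (-|y|)) ≤
      ENNReal.ofReal (C * (1 + |t|) ^ B * (X : ℝ) ^ (1 + 2 * (σ' - σ)) * Real.log X ^ A) := by
  have hpi := Real.pi_pos
  have p0 : 0 < th0 := by unfold th0; positivity
  obtain ⟨C8, hC8, h8⟩ := Pool.Agent.Y46.QTH8.H8b T
  obtain ⟨C11, A, B, hC11, h11⟩ := H11 T
  refine ⟨Real.exp 1 * (C8 * C11 * 16 ^ B), A, B, by positivity,
    fun X σ σ' t hX h0 h1 h2 h3 h4 => ?_⟩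
  have hX0 : (0 : ℝ) < X := by exact_mod_cast (by omega : 0 < X)
  have hL := log_ge_one hX
  have h5 := (abs_le.1 h4).2
  have hlt := thT_lt t
  have hge := thT_ge t
  have hδ : 0 < Real.pi / 2 - thT t := by linarith
  have hinv := thT_inv t
  calc ∑ d ∈ sqf X, ∫⁻ y : ℝ, ‖T.ell d (σ + ((y + t : ℝ) : ℂ) * I)‖ₑ ^ 2 *
        ENNReal.ofReal (Real.exp (-|y|))
      = ∑ d ∈ sqf X, ∫⁻ y : ℝ, ‖T.ell d (σ + (y : ℂ) * I)‖ₑ ^ 2 *
        ENNReal.ofReal (Real.exp (-|y - t|)) := by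
        refine Finset.sum_congr rfl fun d _ => ?_
        rw [← lintegral_add_right_eq_self (μ := volume)
          (fun y : ℝ => ‖T.ell d (σ + (y : ℂ) * I)‖ₑ ^ 2 *
            ENNReal.ofReal (Real.exp (-|y - t|))) t]
        refine lintegral_congr fun y => ?_
        rw [add_sub_cancel_right]
    _ ≤ ∑ d ∈ sqf X, ENNReal.ofReal (Real.exp 1) * ∫⁻ y : ℝ, ‖T.ell d (σ + y * I)‖ₑ ^ 2 *
        ENNReal.ofReal (Real.exp (-((Real.pi - 2 * thT t) * |y|))) := by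
        refine Finset.sum_le_sum fun d _ => ?_
        rw [← lintegral_const_mul' _ _ ENNReal.ofReal_ne_top]
        refine lintegral_mono fun y => ?_
        calc ‖T.ell d (σ + y * I)‖ₑ ^ 2 * ENNReal.ofReal (Real.exp (-|y - t|))
            ≤ ‖T.ell d (σ + y * I)‖ₑ ^ 2 * ENNReal.ofReal (Real.exp 1 *
              Real.exp (-((Real.pi - 2 * thT t) * |y|))) := by
              gcongr
              exact weight t y
          _ = _ := by
              rw [ENNReal.ofReal_mul (Real.exp_pos _).le]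
              ring
    _ ≤ ∑ d ∈ sqf X, ENNReal.ofReal (Real.exp 1) *
          (ENNReal.ofReal (C8 * (X : ℝ) ^ (2 * (σ' - σ))) *
          NN σ' (thT t) (T.q d)⁻¹ (T.Gf d)) := by
        refine Finset.sum_le_sum fun d hd => ?_
        have h6 := h8 (thT t) d σ σ' (by linarith) hlt (sqf_sqf hd) h0 h1 h2 h4
        gcongr
        refine h6.trans ?_
        gcongr
        · linarith
        · exact sqf_abs hd
    _ = ENNReal.ofReal (Real.exp 1) * (ENNReal.ofReal (C8 * (X : ℝ) ^ (2 * (σ' - σ))) *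
          ∑ d ∈ sqf X, NN σ' (thT t) (T.q d)⁻¹ (T.Gf d)) := by
        rw [← Finset.mul_sum, ← Finset.mul_sum]
    _ ≤ ENNReal.ofReal (Real.exp 1) * (ENNReal.ofReal (C8 * (X : ℝ) ^ (2 * (σ' - σ))) *
          ENNReal.ofReal (C11 * ((Real.pi / 2 - thT t)⁻¹) ^ B * X * Real.log X ^ A)) := by
        gcongr
        exact h11 X σ' (thT t) hX h3 h2 hge hlt
    _ ≤ ENNReal.ofReal (Real.exp 1) * (ENNReal.ofReal (C8 * (X : ℝ) ^ (2 * (σ' - σ))) *
          ENNReal.ofReal (C11 * (16 * (1 + |t|)) ^ B * X * Real.log X ^ A)) := by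
        gcongr
    _ = _ := by
        rw [← ENNReal.ofReal_mul (by positivity), ← ENNReal.ofReal_mul (by positivity)]
        congr 1
        rw [Real.rpow_add hX0, Real.rpow_one, mul_pow]
        ring

/-- the second moment of `L_d` over a square, at an arbitrary height -/
theorem mean_SqH : ∃ (C : ℝ) (A B : ℕ), 0 < C ∧ ∀ (X : ℕ) (δ t : ℝ), 3 ≤ X →
    1 / Real.log X ≤ 9 * δ → δ ≤ 1 / 100 →
    ∑ d ∈ sqf X, ∫⁻ p in Sq δ, ‖T.Lq d (pt δ p + t * I)‖ₑ ^ 2 ≤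
      ENNReal.ofReal (C * (1 + |t|) ^ B * (X : ℝ) ^ (1 + 32 * δ) * Real.log X ^ A) := by
  obtain ⟨C, A, B, hC, h⟩ := mean_ellH T
  have hc := c_pos T
  refine ⟨T.c ^ 2 * Real.exp 1 * C, A, B, by positivity, fun X δ t hX h1 h2 => ?_⟩
  have hX0 : (0 : ℝ) < X := by exact_mod_cast (by omega : 0 < X)
  have hX1 : (1 : ℝ) ≤ X := by exact_mod_cast (by omega : 1 ≤ X)
  have hL := log_ge_one hX
  have hδ : 0 < δ := by
    have : 0 < 1 / Real.log X := by positivity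
    linarith
  have hin : ∀ d ∈ sqf X, ∀ x ∈ Icc (-(8 * δ)) (8 * δ),
      ∫⁻ y in Icc (-(8 * δ)) (8 * δ), ‖T.Lq d (pt δ (x, y) + t * I)‖ₑ ^ 2 ≤
      ENNReal.ofReal (T.c ^ 2 * Real.exp 1) *
        ∫⁻ y : ℝ, ‖T.ell d ((1 / 2 + δ + x : ℝ) + ((y + t : ℝ) : ℂ) * I)‖ₑ ^ 2 *
          ENNReal.ofReal (Real.exp (-|y|)) := by
    intro d hd x hx
    rw [← lintegral_const_mul' _ _ ENNReal.ofReal_ne_top]
    refine (setLIntegral_mono_ae' measurableSet_Icc (Filter.Eventually.of_forall fun y hy => ?_)).trans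
      (setLIntegral_le_lintegral (Icc (-(8 * δ)) (8 * δ)) _)
    have e1 : pt δ (x, y) + t * I = ((1 / 2 + δ + x : ℝ) : ℂ) + ((y + t : ℝ) : ℂ) * I := by
      unfold pt
      push_cast
      ring
    rw [e1]
    have hre : (((1 / 2 + δ + x : ℝ) : ℂ) + ((y + t : ℝ) : ℂ) * I).re = 1 / 2 + δ + x := by simp
    have h3 := Lq_le T (sqf_sqf hd) (s := ((1 / 2 + δ + x : ℝ) : ℂ) + ((y + t : ℝ) : ℂ) * I)
      (by rw [hre]; linarith [hx.1])
    refine h3.trans ?_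
    have h4 : (1 : ℝ) ≤ Real.exp 1 * Real.exp (-|y|) := by
      rw [← Real.exp_add, Real.one_le_exp_iff]
      have : |y| ≤ 8 * δ := abs_le.2 hy
      linarith
    have h5 : (1 : ℝ≥0∞) ≤ ENNReal.ofReal (Real.exp 1) *
        ENNReal.ofReal (Real.exp (-|y|)) := by
      rw [← ENNReal.ofReal_mul (Real.exp_pos _).le, ← ENNReal.ofReal_one]
      exact ENNReal.ofReal_le_ofReal h4
    calc ENNReal.ofReal (T.c ^ 2) *
          ‖T.ell d (((1 / 2 + δ + x : ℝ) : ℂ) + ((y + t : ℝ) : ℂ) * I)‖ₑ ^ 2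
        = ENNReal.ofReal (T.c ^ 2) *
          ‖T.ell d (((1 / 2 + δ + x : ℝ) : ℂ) + ((y + t : ℝ) : ℂ) * I)‖ₑ ^ 2 * 1 := by
          rw [mul_one]
      _ ≤ ENNReal.ofReal (T.c ^ 2) *
          ‖T.ell d (((1 / 2 + δ + x : ℝ) : ℂ) + ((y + t : ℝ) : ℂ) * I)‖ₑ ^ 2 *
          (ENNReal.ofReal (Real.exp 1) * ENNReal.ofReal (Real.exp (-|y|))) := by
          gcongr
      _ = _ := by rw [ENNReal.ofReal_mul (by positivity)]; ring
  have hvol : ∀ d, ∫⁻ p in Sq δ, ‖T.Lq d (pt δ p + t * I)‖ₑ ^ 2 ≤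
      ∫⁻ x in Icc (-(8 * δ)) (8 * δ), ∫⁻ y in Icc (-(8 * δ)) (8 * δ),
        ‖T.Lq d (pt δ (x, y) + t * I)‖ₑ ^ 2 := by
    intro d
    unfold Sq
    rw [Measure.volume_eq_prod, ← Measure.prod_restrict]
    exact lintegral_prod_le _
  calc ∑ d ∈ sqf X, ∫⁻ p in Sq δ, ‖T.Lq d (pt δ p + t * I)‖ₑ ^ 2
      ≤ ∑ d ∈ sqf X, ∫⁻ x in Icc (-(8 * δ)) (8 * δ), (ENNReal.ofReal (T.c ^ 2 * Real.exp 1) *
        ∫⁻ y : ℝ, ‖T.ell d ((1 / 2 + δ + x : ℝ) + ((y + t : ℝ) : ℂ) * I)‖ₑ ^ 2 *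
          ENNReal.ofReal (Real.exp (-|y|))) := by
        refine Finset.sum_le_sum fun d hd => (hvol d).trans ?_
        exact setLIntegral_mono_ae' measurableSet_Icc (Filter.Eventually.of_forall (hin d hd))
    _ ≤ ∫⁻ x in Icc (-(8 * δ)) (8 * δ), ∑ d ∈ sqf X, (ENNReal.ofReal (T.c ^ 2 * Real.exp 1) *
        ∫⁻ y : ℝ, ‖T.ell d ((1 / 2 + δ + x : ℝ) + ((y + t : ℝ) : ℂ) * I)‖ₑ ^ 2 *
          ENNReal.ofReal (Real.exp (-|y|))) := sum_lintegral_le _ _ _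
    _ ≤ ∫⁻ x in Icc (-(8 * δ)) (8 * δ), ENNReal.ofReal (T.c ^ 2 * Real.exp 1) *
          ENNReal.ofReal (C * (1 + |t|) ^ B * (X : ℝ) ^ (1 + 32 * δ) * Real.log X ^ A) := by
        refine setLIntegral_mono_ae' measurableSet_Icc (Filter.Eventually.of_forall fun x hx => ?_)
        rw [← Finset.mul_sum]
        gcongr
        refine (h X (1 / 2 + δ + x) (1 / 2 + 9 * δ) t hX (by linarith [hx.1]) (by linarith [hx.2])
          (by linarith) (by linarith) ?_).trans ?_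
        · rw [abs_le]; constructor <;> linarith [hx.1, hx.2]
        · have h9 : (X : ℝ) ^ (1 + 2 * (1 / 2 + 9 * δ - (1 / 2 + δ + x))) ≤
              (X : ℝ) ^ (1 + 32 * δ) :=
            Real.rpow_le_rpow_of_exponent_le hX1 (by linarith [hx.1])
          gcongr
    _ = ENNReal.ofReal (T.c ^ 2 * Real.exp 1) *
          ENNReal.ofReal (C * (1 + |t|) ^ B * (X : ℝ) ^ (1 + 32 * δ) * Real.log X ^ A) *
          ENNReal.ofReal (8 * δ - (-(8 * δ))) := by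
        rw [lintegral_const, Measure.restrict_apply_univ, Real.volume_Icc]
    _ ≤ ENNReal.ofReal (T.c ^ 2 * Real.exp 1) *
          ENNReal.ofReal (C * (1 + |t|) ^ B * (X : ℝ) ^ (1 + 32 * δ) * Real.log X ^ A) * 1 := by
        gcongr
        rw [← ENNReal.ofReal_one]
        exact ENNReal.ofReal_le_ofReal (by linarith)
    _ = _ := by
        rw [mul_one, ← ENNReal.ofReal_mul (by positivity)]
        congr 1
        ring

/-- the second moment of the mollifier over a square, at an arbitrary height -/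
theorem mean_MolH (H : Hecke Q lam) : ∃ (C : ℝ) (A : ℕ), 0 < C ∧ ∀ (X Y : ℕ) (δ t : ℝ), 3 ≤ X →
    1 ≤ Y → (Y : ℝ) ^ 4 ≤ X → 0 < δ → δ ≤ 1 / 100 →
    ∑ d ∈ sqf X, ∫⁻ p in Sq δ, ‖Mol Q lam Y d (pt δ p + t * I)‖ₑ ^ 2 ≤
      ENNReal.ofReal (C * X * Real.log X ^ A * (Y : ℝ) ^ (14 * δ)) := by
  obtain ⟨C, A, hC, h⟩ := Pool.Agent.Y141.QT12c2.T12c2 Q lam H
  refine ⟨C, A, hC, fun X Y δ t hX hY hYX hδ hδ1 => ?_⟩
  have hL := log_ge_one hX
  have hY1 : (1 : ℝ) ≤ Y := by exact_mod_cast hY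
  have hvol : volume (Sq δ) ≤ 1 := by
    unfold Sq
    rw [Measure.volume_eq_prod, Measure.prod_prod, Real.volume_Icc,
      ← ENNReal.ofReal_mul (by linarith), ← ENNReal.ofReal_one]
    apply ENNReal.ofReal_le_ofReal
    nlinarith
  calc ∑ d ∈ sqf X, ∫⁻ p in Sq δ, ‖Mol Q lam Y d (pt δ p + t * I)‖ₑ ^ 2
      ≤ ∫⁻ p in Sq δ, ∑ d ∈ sqf X, ‖Mol Q lam Y d (pt δ p + t * I)‖ₑ ^ 2 := sum_lintegral_le _ _ _
    _ ≤ ∫⁻ p in Sq δ, ENNReal.ofReal (C * X * Real.log X ^ A * (Y : ℝ) ^ (14 * δ)) := by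
        refine setLIntegral_mono_ae' (measurableSet_Sq δ)
          (Filter.Eventually.of_forall fun p hp => ?_)
        have hre : (pt δ p + t * I).re = 1 / 2 + δ + p.1 := by unfold pt; simp
        have hp1 : -(8 * δ) ≤ p.1 := hp.1.1
        have h1 := h X Y (pt δ p + t * I) hX hY hYX (by rw [hre]; linarith)
        have e : ∑ d ∈ sqf X, ‖Mol Q lam Y d (pt δ p + t * I)‖ₑ ^ 2 =
            ENNReal.ofReal (∑ d ∈ sqf X, ‖Mol Q lam Y d (pt δ p + t * I)‖ ^ 2) := by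
          rw [ENNReal.ofReal_sum_of_nonneg (fun d _ => by positivity)]
          refine Finset.sum_congr rfl fun d _ => ?_
          rw [ENNReal.ofReal_pow (norm_nonneg _), ofReal_norm]
        rw [e]
        apply ENNReal.ofReal_le_ofReal
        refine h1.trans ?_
        have h3 : max 0 (1 / 2 - (pt δ p + t * I).re) ≤ 7 * δ := by
          rw [hre]; apply max_le <;> linarith
        have h4 : (Y : ℝ) ^ (2 * max 0 (1 / 2 - (pt δ p + t * I).re)) ≤ (Y : ℝ) ^ (14 * δ) :=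
          Real.rpow_le_rpow_of_exponent_le hY1 (by linarith)
        gcongr
    _ = ENNReal.ofReal (C * X * Real.log X ^ A * (Y : ℝ) ^ (14 * δ)) * volume (Sq δ) := by
        rw [lintegral_const, Measure.restrict_apply_univ]
    _ ≤ ENNReal.ofReal (C * X * Real.log X ^ A * (Y : ℝ) ^ (14 * δ)) * 1 := by gcongr
    _ = _ := mul_one _

/-- the set of `d` with at least `r` zeros at distance at most `η` from `1/2 + it` -/
noncomputable def SH (X : ℕ) (t η : ℝ) (r : ℕ) : Finset ℤ := by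
  classical
  exact (sqf X).filter (fun d => ∃ S : Finset ℂ, (∀ ρ ∈ S, ‖ρ - (1 / 2 + t * I)‖ ≤ η) ∧
    (∀ ρ ∈ S, analyticOrderAt (T.Lq d) ρ ≠ ⊤) ∧
    r ≤ ∑ ρ ∈ S, (analyticOrderAt (T.Lq d) ρ).toNat)

lemma mem_SH {X : ℕ} {t η : ℝ} {r : ℕ} {d : ℤ} :
    d ∈ SH T X t η r ↔ d ∈ sqf X ∧ ∃ S : Finset ℂ, (∀ ρ ∈ S, ‖ρ - (1 / 2 + t * I)‖ ≤ η) ∧
    (∀ ρ ∈ S, analyticOrderAt (T.Lq d) ρ ≠ ⊤) ∧
    r ≤ ∑ ρ ∈ S, (analyticOrderAt (T.Lq d) ρ).toNat := by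
  unfold SH
  simp

lemma SH_sub (X : ℕ) (t η : ℝ) (r : ℕ) : SH T X t η r ⊆ sqf X := fun _ hd => (mem_SH T |>.1 hd).1

/-- the values at `1/2 + δ + it` -/
noncomputable def vvH (Y : ℕ) (δ t : ℝ) (d : ℤ) : ℂ :=
  T.Lq d ((1 / 2 : ℝ) + δ + t * I) * Mol Q lam Y d ((1 / 2 : ℝ) + δ + t * I)

/-- the first sum -/
theorem sum_vvH : ∃ (C : ℝ) (A B : ℕ), 0 < C ∧ ∀ (X Y r : ℕ) (δ t η : ℝ), 3 ≤ X → 1 ≤ Y →
    (Y : ℝ) ^ 4 ≤ X → 1 / Real.log X ≤ 9 * δ → δ ≤ 1 / 100 → η ≤ 2 / 3 * δ →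
    δ ^ 2 * 2 ^ r * ∑ d ∈ SH T X t η r, ‖vvH T Y δ t d‖ ≤
      C * (1 + |t|) ^ B * (X : ℝ) ^ (1 + 32 * δ) * Real.log X ^ A := by
  obtain ⟨C1, A1, B, hC1, h1⟩ := mean_SqH T
  obtain ⟨C2, A2, hC2, h2⟩ := mean_MolH T.hecke
  refine ⟨C1 + C2, A1 + A2, B, by positivity, fun X Y r δ t η hX hY hYX hδ1 hδ2 hη => ?_⟩
  have hX0 : (0 : ℝ) < X := by exact_mod_cast (by omega : 0 < X)
  have hX1 : (1 : ℝ) ≤ X := by exact_mod_cast (by omega : 1 ≤ X)
  have hL := log_ge_one hX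
  have hY1 : (1 : ℝ) ≤ Y := by exact_mod_cast hY
  have htB : 1 ≤ (1 + |t|) ^ B := one_le_pow₀ (by have := abs_nonneg t; linarith)
  have hδ : 0 < δ := by
    have : 0 < 1 / Real.log X := by positivity
    linarith
  have hpi := Real.pi_gt_three
  have hYX1 : (Y : ℝ) ≤ X := by
    calc (Y : ℝ) ≤ (Y : ℝ) ^ 4 := le_self_pow₀ hY1 (by norm_num)
      _ ≤ X := hYX
  have key : ∀ d ∈ SH T X t η r, ENNReal.ofReal (3 * δ * (5 * δ)) * (ENNReal.ofReal (2 * Real.pi) *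
      ENNReal.ofReal (2 ^ r * ‖vvH T Y δ t d‖)) ≤
      (∫⁻ p in Sq δ, ‖T.Lq d (pt δ p + t * I)‖ₑ ^ 2) +
        ∫⁻ p in Sq δ, ‖Mol Q lam Y d (pt δ p + t * I)‖ₑ ^ 2 := by
    intro d hd
    classical
    obtain ⟨hd1, S, hS1, hS2, hS3⟩ := (mem_SH T).1 hd
    set G : ℂ → ℂ := fun s => T.Lq d (s + t * I) with hG
    set N : ℂ → ℂ := fun s => Mol Q lam Y d (s + t * I) with hN
    have hGd : DifferentiableOn ℂ G (Metric.ball (1 / 2) (20 * δ)) := by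
      refine (Lq_diff T (sqf_sqf hd1)).comp ((differentiable_id.add_const _).differentiableOn)
        fun s hs => ?_
      rw [Metric.mem_ball, dist_eq_norm] at hs
      have h3 := (Complex.abs_re_le_norm (s - 1 / 2)).trans hs.le
      have h4 : (s - 1 / 2).re = s.re - 1 / 2 := by simp
      rw [h4] at h3
      have := (abs_le.1 h3).1
      show 1 / 4 < (s + t * I).re
      have e : (s + t * I).re = s.re := by simp
      rw [e]
      linarith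
    have hNd : DifferentiableOn ℂ N (Metric.ball (1 / 2) (20 * δ)) :=
      ((mol_diff Y d).comp (differentiable_id.add_const _)).differentiableOn
    set S' : Finset ℂ := S.image (fun ρ => ρ - t * I) with hS'
    set m : ℂ → ℕ := fun ρ => (analyticOrderAt (T.Lq d) (ρ + t * I)).toNat with hm
    have hsum : ∑ ρ ∈ S', m ρ = ∑ ρ ∈ S, (analyticOrderAt (T.Lq d) ρ).toNat := by
      rw [hS', Finset.sum_image (fun a _ b _ h => by simpa using h)]
      refine Finset.sum_congr rfl fun ρ _ => ?_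
      rw [hm]
      simp
    have h5 := stepB' (L := G) (M := N) (S := S') (m := m) hδ hGd hNd (fun ρ hρ => by
        obtain ⟨ρ', hρ', rfl⟩ := Finset.mem_image.1 hρ
        have e : ρ' - t * I - 1 / 2 = ρ' - (1 / 2 + t * I) := by ring
        rw [e]
        exact (hS1 ρ' hρ').trans hη) (fun ρ hρ => by
        obtain ⟨ρ', hρ', rfl⟩ := Finset.mem_image.1 hρ
        have e1 : m (ρ' - t * I) = (analyticOrderAt (T.Lq d) ρ').toNat := by
          rw [hm]; simp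
        rw [e1, ENat.natCast_toNat (hS2 ρ' hρ')]
        have hcomp := order_shift (T.Lq d) (t * I) (ρ' - t * I)
        rw [sub_add_cancel] at hcomp
        exact hcomp.ge)
    have hm : Measurable fun p : ℝ × ℝ => ‖Mol Q lam Y d (pt δ p + t * I)‖ₑ ^ 2 :=
      (((mol_cont Y d).comp ((continuous_pt δ).add continuous_const)).enorm.measurable).pow_const 2
    rw [← lintegral_add_right _ hm]
    have h6 : ENNReal.ofReal (2 ^ r * ‖vvH T Y δ t d‖) ≤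
        ENNReal.ofReal (2 ^ (∑ ρ ∈ S', m ρ) * ‖G (1 / 2 + δ) * N (1 / 2 + δ)‖) := by
      apply ENNReal.ofReal_le_ofReal
      have e : vvH T Y δ t d = G (1 / 2 + δ) * N (1 / 2 + δ) := by
        unfold vvH
        rw [hG, hN]
        push_cast
        rfl
      rw [e, hsum]
      gcongr
      norm_num
    refine (mul_le_mul' le_rfl (mul_le_mul' le_rfl h6)).trans (h5.trans (lintegral_mono fun p => ?_))
    rw [hG, hN]
    dsimp only
    rcases le_total ‖T.Lq d (pt δ p + t * I)‖ₑ ‖Mol Q lam Y d (pt δ p + t * I)‖ₑ with h | h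
    · calc ‖T.Lq d (pt δ p + t * I)‖ₑ * ‖Mol Q lam Y d (pt δ p + t * I)‖ₑ
          ≤ ‖Mol Q lam Y d (pt δ p + t * I)‖ₑ * ‖Mol Q lam Y d (pt δ p + t * I)‖ₑ := by gcongr
        _ = ‖Mol Q lam Y d (pt δ p + t * I)‖ₑ ^ 2 := (sq _).symm
        _ ≤ _ := le_add_self
    · calc ‖T.Lq d (pt δ p + t * I)‖ₑ * ‖Mol Q lam Y d (pt δ p + t * I)‖ₑ
          ≤ ‖T.Lq d (pt δ p + t * I)‖ₑ * ‖T.Lq d (pt δ p + t * I)‖ₑ := by gcongr
        _ = ‖T.Lq d (pt δ p + t * I)‖ₑ ^ 2 := (sq _).symm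
        _ ≤ _ := le_self_add
  have hsum : ENNReal.ofReal (3 * δ * (5 * δ) * (2 * Real.pi) *
      (2 ^ r * ∑ d ∈ SH T X t η r, ‖vvH T Y δ t d‖)) ≤
      ENNReal.ofReal (C1 * (1 + |t|) ^ B * (X : ℝ) ^ (1 + 32 * δ) * Real.log X ^ A1 +
        C2 * X * Real.log X ^ A2 * (Y : ℝ) ^ (14 * δ)) := by
    rw [ENNReal.ofReal_mul (by positivity), ENNReal.ofReal_mul (by positivity), mul_assoc,
      Finset.mul_sum, ENNReal.ofReal_sum_of_nonneg (fun d _ => by positivity), Finset.mul_sum,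
      Finset.mul_sum, ENNReal.ofReal_add (by positivity) (by positivity)]
    refine (Finset.sum_le_sum key).trans ?_
    rw [Finset.sum_add_distrib]
    refine add_le_add ?_ ?_
    · exact (Finset.sum_le_sum_of_subset (SH_sub T X t η r)).trans (h1 X δ t hX hδ1 hδ2)
    · exact (Finset.sum_le_sum_of_subset (SH_sub T X t η r)).trans (h2 X Y δ t hX hY hYX hδ hδ2)
  have hreal := (ENNReal.ofReal_le_ofReal_iff (by positivity)).1 hsum
  have hV : 0 ≤ ∑ d ∈ SH T X t η r, ‖vvH T Y δ t d‖ := Finset.sum_nonneg fun d _ => norm_nonneg _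
  have e1 : (X : ℝ) * (Y : ℝ) ^ (14 * δ) ≤ (X : ℝ) ^ (1 + 32 * δ) := by
    rw [Real.rpow_add hX0, Real.rpow_one]
    gcongr
    calc (Y : ℝ) ^ (14 * δ) ≤ (X : ℝ) ^ (14 * δ) :=
          Real.rpow_le_rpow (by positivity) hYX1 (by positivity)
      _ ≤ (X : ℝ) ^ (32 * δ) := Real.rpow_le_rpow_of_exponent_le hX1 (by linarith)
  have h8 : Real.log X ^ A1 ≤ Real.log X ^ (A1 + A2) := pow_le_pow_right₀ hL (by omega)
  have h9 : Real.log X ^ A2 ≤ Real.log X ^ (A1 + A2) := pow_le_pow_right₀ hL (by omega)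
  calc δ ^ 2 * 2 ^ r * ∑ d ∈ SH T X t η r, ‖vvH T Y δ t d‖
      ≤ 30 * Real.pi * (δ ^ 2 * 2 ^ r * ∑ d ∈ SH T X t η r, ‖vvH T Y δ t d‖) := by
        have : 0 ≤ δ ^ 2 * 2 ^ r * ∑ d ∈ SH T X t η r, ‖vvH T Y δ t d‖ := by positivity
        nlinarith
    _ = 3 * δ * (5 * δ) * (2 * Real.pi) * (2 ^ r * ∑ d ∈ SH T X t η r, ‖vvH T Y δ t d‖) := by ring
    _ ≤ C1 * (1 + |t|) ^ B * (X : ℝ) ^ (1 + 32 * δ) * Real.log X ^ A1 +
        C2 * X * Real.log X ^ A2 * (Y : ℝ) ^ (14 * δ) := hreal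
    _ = C1 * (1 + |t|) ^ B * (X : ℝ) ^ (1 + 32 * δ) * Real.log X ^ A1 +
        C2 * 1 * (X * (Y : ℝ) ^ (14 * δ)) * Real.log X ^ A2 := by ring
    _ ≤ C1 * (1 + |t|) ^ B * (X : ℝ) ^ (1 + 32 * δ) * Real.log X ^ (A1 + A2) +
        C2 * (1 + |t|) ^ B * (X : ℝ) ^ (1 + 32 * δ) * Real.log X ^ (A1 + A2) := by gcongr
    _ = _ := by ring

end Pool.Agent.U693.QT
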